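import Mathlib

/-!
# Transcripts of a process run by two players

A process with states `S` is advanced by the first player (input `x`) in the states outside `inB`
and by the second player (input `y`) in the states in `inB`. If the second player is needed in
fewer than `R` phases, the final state is a function of a transcript of `2 R` states, and the
inputs with a given transcript form a rectangle.
-/

set_option linter.unusedSectionVars false

namespace Pool.Agent.UT

section TwoParty

variable {S X Y : Type} (inB : S → Prop) [DecidablePred inB] (sA : X → S → S) (sB : Y → S → S)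
  (s0 : S) (F : ℕ)

/-- one step of the process -/
def stp (x : X) (y : Y) (s : S) : S := if inB s then sB y s else sA x s

/-- the process -/
def rn (x : X) (y : Y) (m : ℕ) : S := (stp inB sA sB x y)^[m] s0

/-- a phase of the first player -/
def itA (x : X) : S → S := (fun s => if inB s then s else sA x s)^[F]

/-- a phase of the second player -/
def itB (y : Y) : S → S := (fun s => if ¬ inB s then s else sB y s)^[F]

/-- the state at the start of round `r` -/
def uu (x : X) (y : Y) : ℕ → S
  | 0 => s0
  | r + 1 => itB inB sB F y (itA inB sA F x (uu x y r))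

/-- the state at the start of round `r` according to a transcript -/
def ut {R : ℕ} (t : Fin R → S × S) : ℕ → S
  | 0 => s0
  | r + 1 => if h : r < R then (t ⟨r, h⟩).2 else s0

/-- the transcript -/
def Tr (R : ℕ) (x : X) (y : Y) : Fin R → S × S := fun r =>
  (itA inB sA F x (uu inB sA sB s0 F x y r), uu inB sA sB s0 F x y (r + 1))

/-- the first player's condition -/
def TA {R : ℕ} (t : Fin R → S × S) (x : X) : Prop :=
  ∀ r : Fin R, itA inB sA F x (ut s0 t r) = (t r).1

/-- the second player's condition -/
def TB {R : ℕ} (t : Fin R → S × S) (y : Y) : Prop :=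
  ∀ r : Fin R, itB inB sB F y (t r).1 = (t r).2

variable {inB sA sB s0 F}

lemma ut_Tr {R : ℕ} (x : X) (y : Y) (r : ℕ) (hr : r ≤ R) :
    ut s0 (Tr inB sA sB s0 F R x y) r = uu inB sA sB s0 F x y r := by
  cases r with
  | zero => rfl
  | succ r =>
    have : r < R := hr
    simp [ut, this, Tr]

lemma Tr_iff {R : ℕ} (x : X) (y : Y) (t : Fin R → S × S) :
    Tr inB sA sB s0 F R x y = t ↔ TA inB sA s0 F t x ∧ TB inB sB F t y := by
  constructor
  · rintro rfl
    constructor
    · intro r
      rw [ut_Tr x y r r.2.le]
      rfl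
    · intro r
      rfl
  · rintro ⟨hA, hB⟩
    have key : ∀ r ≤ R, uu inB sA sB s0 F x y r = ut s0 t r := by
      intro r
      induction r with
      | zero => intro _; rfl
      | succ r ih =>
        intro hr
        have hr' : r < R := hr
        have h1 := ih hr'.le
        have h2 := hA ⟨r, hr'⟩
        have h3 := hB ⟨r, hr'⟩
        show itB inB sB F y (itA inB sA F x (uu inB sA sB s0 F x y r)) = _
        rw [h1]
        simp only at h2 h3
        rw [h2, h3]
        simp [ut, hr']
    funext r
    have h2 := hA r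
    have h3 := hB r
    have h4 := key r r.2.le
    have h5 := key (r + 1) r.2
    refine Prod.ext ?_ ?_
    · show itA inB sA F x (uu inB sA sB s0 F x y r) = _
      rw [h4, h2]
    · show uu inB sA sB s0 F x y (r + 1) = _
      rw [h5]
      simp [ut]

lemma iter_stop (g : S → S) (p : S → Prop) [DecidablePred p] (F : ℕ) (s : S) :
    ∃ m ≤ F, (fun s => if p s then s else g s)^[F] s = g^[m] s ∧ (∀ i < m, ¬ p (g^[i] s)) ∧
      (m = F ∨ p (g^[m] s)) := by
  induction F generalizing s with
  | zero => exact ⟨0, le_rfl, rfl, fun i hi => absurd hi (Nat.not_lt_zero i), Or.inl rfl⟩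
  | succ F ih =>
    by_cases hp : p s
    · refine ⟨0, Nat.zero_le _, ?_, fun i hi => absurd hi (Nat.not_lt_zero i), Or.inr hp⟩
      have h1 : (fun s => if p s then s else g s) s = s := if_pos hp
      rw [Function.iterate_fixed h1]
      rfl
    · obtain ⟨m, hm, h1, h2, h3⟩ := ih (g s)
      refine ⟨m + 1, by omega, ?_, ?_, ?_⟩
      · rw [Function.iterate_succ_apply, Function.iterate_succ_apply, if_neg hp, h1]
      · intro i hi
        cases i with
        | zero => exact hp
        | succ i =>
          rw [Function.iterate_succ_apply]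
          exact h2 i (by omega)
      · rcases h3 with h3 | h3
        · left
          omega
        · right
          rw [Function.iterate_succ_apply]
          exact h3

lemma iter_congr (g g' : S → S) (p : S → Prop) (h : ∀ s, ¬ p s → g s = g' s) (s : S) (m : ℕ)
    (hm : ∀ i < m, ¬ p (g^[i] s)) : ∀ i ≤ m, g^[i] s = g'^[i] s := by
  intro i
  induction i with
  | zero => intro _; rfl
  | succ i ih =>
    intro hi
    have h1 := ih (by omega)
    have h2 := hm i (by omega)
    rw [Function.iterate_succ_apply', Function.iterate_succ_apply', ← h1]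
    exact h _ h2

lemma rn_add (x : X) (y : Y) (m i : ℕ) :
    (stp inB sA sB x y)^[i] (rn inB sA sB s0 x y m) = rn inB sA sB s0 x y (m + i) := by
  unfold rn
  rw [← Function.iterate_add_apply, add_comm]

lemma itA_rn (x : X) (y : Y) (m : ℕ) : ∃ a, itA inB sA F x (rn inB sA sB s0 x y m) =
    rn inB sA sB s0 x y (m + a) ∧ (∀ i < a, ¬ inB (rn inB sA sB s0 x y (m + i))) ∧
      (a = F ∨ inB (rn inB sA sB s0 x y (m + a))) := by
  obtain ⟨a, _, h1, h2, h3⟩ := iter_stop (sA x) inB F (rn inB sA sB s0 x y m)
  have h4 := iter_congr (sA x) (stp inB sA sB x y) inB (fun s hs => by simp [stp, hs])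
    (rn inB sA sB s0 x y m) a h2
  refine ⟨a, ?_, ?_, ?_⟩
  · unfold itA
    rw [h1, h4 a le_rfl, rn_add]
  · intro i hi
    rw [← rn_add, ← h4 i hi.le]
    exact h2 i hi
  · rcases h3 with h3 | h3
    · exact Or.inl h3
    · right
      rw [← rn_add, ← h4 a le_rfl]
      exact h3

lemma itB_rn (x : X) (y : Y) (m : ℕ) : ∃ a, itB inB sB F y (rn inB sA sB s0 x y m) =
    rn inB sA sB s0 x y (m + a) ∧ (∀ i < a, inB (rn inB sA sB s0 x y (m + i))) ∧
      (a = F ∨ ¬ inB (rn inB sA sB s0 x y (m + a))) := by
  obtain ⟨a, _, h1, h2, h3⟩ := iter_stop (sB y) (fun s => ¬ inB s) F (rn inB sA sB s0 x y m)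
  have h4 := iter_congr (sB y) (stp inB sA sB x y) (fun s => ¬ inB s)
    (fun s hs => by simp only [not_not] at hs; simp [stp, hs])
    (rn inB sA sB s0 x y m) a h2
  refine ⟨a, ?_, ?_, ?_⟩
  · unfold itB
    rw [h1, h4 a le_rfl, rn_add]
  · intro i hi
    rw [← rn_add, ← h4 i hi.le]
    exact not_not.1 (h2 i hi)
  · rcases h3 with h3 | h3
    · exact Or.inl h3
    · right
      rw [← rn_add, ← h4 a le_rfl]
      exact h3

/-- number of phases of the second player started before time `m` -/
def ent (inB : S → Prop) [DecidablePred inB] (sA : X → S → S) (sB : Y → S → S) (s0 : S) (x : X)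
    (y : Y) (m : ℕ) : ℕ :=
  ((Finset.range m).filter fun i => ¬ inB (rn inB sA sB s0 x y i) ∧
    inB (rn inB sA sB s0 x y (i + 1))).card

lemma ent_mono (x : X) (y : Y) {m m' : ℕ} (h : m ≤ m') :
    ent inB sA sB s0 x y m ≤ ent inB sA sB s0 x y m' := by
  unfold ent
  apply Finset.card_le_card
  apply Finset.filter_subset_filter
  exact Finset.range_mono h

lemma ent_lt (x : X) (y : Y) {m i m' : ℕ} (h : m ≤ i) (h' : i < m')
    (h1 : ¬ inB (rn inB sA sB s0 x y i)) (h2 : inB (rn inB sA sB s0 x y (i + 1))) :
    ent inB sA sB s0 x y m + 1 ≤ ent inB sA sB s0 x y m' := by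
  unfold ent
  rw [← Finset.card_insert_of_notMem (a := i)]
  · apply Finset.card_le_card
    intro j hj
    rcases Finset.mem_insert.1 hj with rfl | hj
    · exact Finset.mem_filter.2 ⟨Finset.mem_range.2 h', h1, h2⟩
    · obtain ⟨hj1, hj2⟩ := Finset.mem_filter.1 hj
      exact Finset.mem_filter.2 ⟨Finset.mem_range.2 (by have := Finset.mem_range.1 hj1; omega), hj2⟩
  · intro hi
    have := Finset.mem_range.1 (Finset.mem_filter.1 hi).1
    omega

lemma rn_const (x : X) (y : Y)
    (hfix : stp inB sA sB x y (rn inB sA sB s0 x y F) = rn inB sA sB s0 x y F) (m : ℕ)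
    (hm : F ≤ m) : rn inB sA sB s0 x y m = rn inB sA sB s0 x y F := by
  obtain ⟨i, rfl⟩ := Nat.exists_eq_add_of_le hm
  rw [← rn_add, Function.iterate_fixed hfix]

lemma uu_reach (h0 : ¬ inB s0) (x : X) (y : Y) (r : ℕ) :
    ∃ m, uu inB sA sB s0 F x y r = rn inB sA sB s0 x y m ∧
      (F ≤ m ∨ (r ≤ ent inB sA sB s0 x y m ∧ ¬ inB (rn inB sA sB s0 x y m))) := by
  induction r with
  | zero => exact ⟨0, rfl, Or.inr ⟨Nat.zero_le _, h0⟩⟩
  | succ r ih =>
    obtain ⟨m, hm, hor⟩ := ih
    obtain ⟨a, ha, ha1, ha2⟩ := itA_rn (inB := inB) (sA := sA) (sB := sB) (s0 := s0) (F := F) x y m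
    obtain ⟨b, hb, hb1, hb2⟩ :=
      itB_rn (inB := inB) (sA := sA) (sB := sB) (s0 := s0) (F := F) x y (m + a)
    refine ⟨m + a + b, ?_, ?_⟩
    · show itB inB sB F y (itA inB sA F x (uu inB sA sB s0 F x y r)) = _
      rw [hm, ha, hb]
    · rcases hor with hor | ⟨hr, hnB⟩
      · left
        omega
      · rcases ha2 with ha2 | ha2
        · left
          omega
        · rcases hb2 with hb2 | hb2
          · left
            omega
          · right
            refine ⟨?_, hb2⟩
            have ha0 : 0 < a := by
              rcases Nat.eq_zero_or_pos a with h | h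
              · rw [h] at ha2
                exact absurd ha2 hnB
              · exact h
            have hb0 : 0 < b := by
              rcases Nat.eq_zero_or_pos b with h | h
              · rw [h] at hb2
                exact absurd ha2 hb2
              · exact h
            have h1 := ha1 (a - 1) (by omega)
            have h2 : inB (rn inB sA sB s0 x y (m + (a - 1) + 1)) := by
              have : m + (a - 1) + 1 = m + a := by omega
              rw [this]
              exact ha2
            have h3 := ent_lt (m := m) (m' := m + a + b) x y (by omega) (by omega) h1 h2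
            omega

/-- the final state of a transcript -/
def endS (s0 : S) {R : ℕ} (t : Fin R → S × S) : S := ut s0 t R

lemma endS_Tr (R : ℕ) (x : X) (y : Y) :
    endS s0 (Tr inB sA sB s0 F R x y) = uu inB sA sB s0 F x y R := ut_Tr x y R le_rfl

lemma endS_sound (h0 : ¬ inB s0) (R : ℕ) (x : X) (y : Y) :
    ∃ m, endS s0 (Tr inB sA sB s0 F R x y) = rn inB sA sB s0 x y m := by
  rw [endS_Tr]
  obtain ⟨m, hm, _⟩ := uu_reach (inB := inB) (sA := sA) (sB := sB) (F := F) h0 x y R
  exact ⟨m, hm⟩

lemma endS_complete (h0 : ¬ inB s0) (R : ℕ) (x : X) (y : Y)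
    (hfix : stp inB sA sB x y (rn inB sA sB s0 x y F) = rn inB sA sB s0 x y F)
    (hent : ent inB sA sB s0 x y F < R) :
    endS s0 (Tr inB sA sB s0 F R x y) = rn inB sA sB s0 x y F := by
  rw [endS_Tr]
  obtain ⟨m, hm, hor⟩ := uu_reach (inB := inB) (sA := sA) (sB := sB) (F := F) h0 x y R
  rcases hor with h | ⟨h, _⟩
  · rw [hm, rn_const x y hfix m h]
  · rcases le_total F m with h' | h'
    · rw [hm, rn_const x y hfix m h']
    · have := ent_mono (inB := inB) (sA := sA) (sB := sB) (s0 := s0) x y h'
      omega

end TwoParty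

end Pool.Agent.UT
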