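import Mathlib

/-!
# A corruption lemma for set disjointness

`D : E → Bool` assigns every position to one of the two players; `msk D u` is the input of the first
player, `msk (ng D) u'` the input of the second, for uniformly random `u` and `u'`.
-/

set_option linter.unusedSectionVars false

namespace Pool.Agent.UT

open Finset

variable {E : Type} [Fintype E] [DecidableEq E]

/-- the bits of `u` in the positions chosen by `D` -/
def msk (D u : E → Bool) : E → Bool := fun e => D e && u e

/-- the complementary choice -/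
def ng (D : E → Bool) : E → Bool := fun e => !D e

lemma ng_ng (D : E → Bool) : ng (ng D) = D := by
  funext e
  simp [ng]

/-- complementing as a permutation -/
def ngE : (E → Bool) ≃ (E → Bool) := ⟨ng, ng, ng_ng, ng_ng⟩

/-- flip position `e` -/
def flp (e : E) (u : E → Bool) : E → Bool := Function.update u e (!u e)

lemma flp_flp (e : E) (u : E → Bool) : flp e (flp e u) = u := by
  unfold flp
  simp

def flpE (e : E) : (E → Bool) ≃ (E → Bool) := ⟨flp e, flp e, flp_flp e, flp_flp e⟩

lemma sum_flp (e : E) (F : (E → Bool) → ℝ) : ∑ u, F (flp e u) = ∑ u, F u :=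
  Equiv.sum_comp (flpE e) F

lemma sum_update_true (e : E) (F : (E → Bool) → ℝ) :
    ∑ u, F (Function.update u e true) = 2 * ∑ u, F u * (if u e = true then 1 else 0) := by
  have h1 : ∀ u : E → Bool, F (Function.update u e true) =
      F u * (if u e = true then 1 else 0) +
        F (flp e u) * (if (flp e u) e = true then 1 else 0) := by
    intro u
    cases hu : u e
    · simp [flp, hu]
    · have : Function.update u e true = u := by
        rw [← hu]
        exact Function.update_eq_self e u
      simp [flp, hu, this]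
  rw [Finset.sum_congr rfl fun u _ => h1 u, Finset.sum_add_distrib,
    sum_flp e (fun u => F u * (if u e = true then 1 else 0))]
  ring

lemma sum_update_false (e : E) (F : (E → Bool) → ℝ) :
    ∑ u, F (Function.update u e false) = 2 * ∑ u, F u * (if u e = false then 1 else 0) := by
  have h1 : ∀ u : E → Bool, F (Function.update u e false) =
      F u * (if u e = false then 1 else 0) +
        F (flp e u) * (if (flp e u) e = false then 1 else 0) := by
    intro u
    cases hu : u e
    · have : Function.update u e false = u := by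
        rw [← hu]
        exact Function.update_eq_self e u
      simp [flp, hu, this]
    · simp [flp, hu]
  rw [Finset.sum_congr rfl fun u _ => h1 u, Finset.sum_add_distrib,
    sum_flp e (fun u => F u * (if u e = false then 1 else 0))]
  ring

/-- the mass of `f` -/
noncomputable def al (f : (E → Bool) → ℝ) (D : E → Bool) : ℝ := ∑ u, f (msk D u)

/-- the mass of `f` if position `e` is set to `b` -/
noncomputable def alb (f : (E → Bool) → ℝ) (D : E → Bool) (e : E) (b : Bool) : ℝ :=
  ∑ u, f (Function.update (msk D u) e b)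

lemma alb_eq_true {f : (E → Bool) → ℝ} {D : E → Bool} {e : E} (h : D e = true) :
    alb f D e true = 2 * ∑ u, f (msk D u) * (if u e = true then 1 else 0) := by
  rw [← sum_update_true e (fun u => f (msk D u)), alb]
  refine Finset.sum_congr rfl fun u _ => ?_
  congr 1
  funext e'
  by_cases he : e' = e
  · subst he
    simp [msk, h]
  · simp [msk, he]

lemma alb_eq_false {f : (E → Bool) → ℝ} {D : E → Bool} {e : E} (h : D e = true) :
    alb f D e false = 2 * ∑ u, f (msk D u) * (if u e = false then 1 else 0) := by
  rw [← sum_update_false e (fun u => f (msk D u)), alb]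
  refine Finset.sum_congr rfl fun u _ => ?_
  congr 1
  funext e'
  by_cases he : e' = e
  · subst he
    simp [msk]
  · simp [msk, he]

lemma alb_add {f : (E → Bool) → ℝ} {D : E → Bool} {e : E} (h : D e = true) :
    alb f D e false + alb f D e true = 2 * al f D := by
  rw [alb_eq_true h, alb_eq_false h, al, ← mul_add, ← Finset.sum_add_distrib]
  congr 1
  refine Finset.sum_congr rfl fun u _ => ?_
  cases u e <;> simp

lemma alb_false_of {f : (E → Bool) → ℝ} {D : E → Bool} {e : E} (h : D e = false) :
    alb f D e false = al f D := by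
  rw [alb, al]
  refine Finset.sum_congr rfl fun u _ => ?_
  congr 1
  funext e'
  by_cases he : e' = e
  · subst he
    simp [msk, h]
  · simp [he]

lemma alb_flp (f : (E → Bool) → ℝ) (D : E → Bool) (e : E) (b : Bool) :
    alb f (flp e D) e b = alb f D e b := by
  rw [alb, alb]
  refine Finset.sum_congr rfl fun u _ => ?_
  congr 1
  funext e'
  by_cases he : e' = e
  · subst he
    simp
  · simp [msk, flp, he]

lemma ng_flp (D : E → Bool) (e : E) : ng (flp e D) = flp e (ng D) := by
  funext e'
  by_cases he : e' = e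
  · subst he
    simp [ng, flp]
  · simp [ng, flp, he]

lemma al_nonneg {f : (E → Bool) → ℝ} (hf : ∀ x, 0 ≤ f x) (D : E → Bool) : 0 ≤ al f D :=
  Finset.sum_nonneg fun _ _ => hf _

lemma alb_nonneg {f : (E → Bool) → ℝ} (hf : ∀ x, 0 ≤ f x) (D : E → Bool) (e : E) (b : Bool) :
    0 ≤ alb f D e b := Finset.sum_nonneg fun _ _ => hf _

lemma al_le {f : (E → Bool) → ℝ} (hf : ∀ x, f x ≤ 1) (D : E → Bool) :
    al f D ≤ 2 ^ Fintype.card E := by
  refine (Finset.sum_le_sum fun _ _ => hf _).trans ?_
  simp

/-- a set with many biased positions is small -/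
lemma bias {f : (E → Bool) → ℝ} (hf : ∀ x, 0 ≤ f x) (hf1 : ∀ x, f x ≤ 1) (D : E → Bool) :
    al f D ≤ 2 ^ Fintype.card E * Real.exp (-((Finset.univ.filter fun e =>
      D e = true ∧ 4 * alb f D e true < 3 * alb f D e false).card : ℝ) / 98) := by
  set I := Finset.univ.filter fun e => D e = true ∧ 4 * alb f D e true < 3 * alb f D e false with hI
  set r : ℝ := (I.card : ℝ) with hr
  let S : (E → Bool) → ℝ := fun u => ∑ e ∈ I, (if u e = true then (1 / 2 : ℝ) else -(1 / 2))
  -- the sum of `S` over the set is very negative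
  have h1 : ∑ u, f (msk D u) * S u ≤ -(r / 14) * al f D := by
    have e1 : ∑ u, f (msk D u) * S u =
        ∑ e ∈ I, ∑ u, f (msk D u) * (if u e = true then (1 / 2 : ℝ) else -(1 / 2)) := by
      rw [Finset.sum_comm]
      refine Finset.sum_congr rfl fun u _ => ?_
      rw [Finset.mul_sum]
    have e2 : ∀ e ∈ I, ∑ u, f (msk D u) * (if u e = true then (1 / 2 : ℝ) else -(1 / 2)) ≤
        -(1 / 14) * al f D := by
      intro e he
      obtain ⟨_, he1, he2⟩ := Finset.mem_filter.1 he
      have e3 : ∑ u, f (msk D u) * (if u e = true then (1 / 2 : ℝ) else -(1 / 2)) =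
          (alb f D e true - alb f D e false) / 4 := by
        rw [alb_eq_true he1, alb_eq_false he1, ← mul_sub, ← Finset.sum_sub_distrib,
          Finset.mul_sum, Finset.sum_div]
        refine Finset.sum_congr rfl fun u _ => ?_
        cases u e <;> simp <;> ring
      have e4 := alb_add (f := f) he1
      rw [e3]
      linarith
    rw [e1]
    refine (Finset.sum_le_sum e2).trans ?_
    rw [Finset.sum_const, nsmul_eq_mul, ← hr]
    apply le_of_eq
    ring
  -- exponential moment
  have h2 : ∑ u : E → Bool, Real.exp (-(2 / 7) * S u) ≤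
      2 ^ Fintype.card E * Real.exp (r / 98) := by
    have e1 : ∀ u : E → Bool, Real.exp (-(2 / 7) * S u) =
        ∏ e, (if e ∈ I then Real.exp (-(2 / 7) * (if u e = true then (1 / 2 : ℝ) else -(1 / 2)))
          else 1) := by
      intro u
      rw [Finset.prod_ite_mem, Finset.univ_inter, ← Real.exp_sum, Finset.mul_sum]
    have e2 : ∑ u : E → Bool, Real.exp (-(2 / 7) * S u) =
        ∏ e : E, ∑ b : Bool, (if e ∈ I then
          Real.exp (-(2 / 7) * (if b = true then (1 / 2 : ℝ) else -(1 / 2))) else 1) := by
      rw [Finset.prod_univ_sum]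
      rw [Fintype.piFinset_univ]
      exact Finset.sum_congr rfl fun u _ => e1 u
    rw [e2]
    have e3 : ∀ e : E, ∑ b : Bool, (if e ∈ I then
          Real.exp (-(2 / 7) * (if b = true then (1 / 2 : ℝ) else -(1 / 2))) else 1) ≤
        2 * (if e ∈ I then Real.exp (1 / 98) else 1) := by
      intro e
      by_cases he : e ∈ I
      · simp only [he, if_true, Fintype.sum_bool, Bool.false_eq_true, if_false]
        have := Real.cosh_le_exp_half_sq (1 / 7)
        rw [Real.cosh_eq] at this
        have h3 : Real.exp ((1 / 7 : ℝ) ^ 2 / 2) = Real.exp (1 / 98) := by norm_num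
        rw [h3] at this
        have h4 : -(2 / 7) * (1 / 2 : ℝ) = -(1 / 7) := by norm_num
        have h5 : -(2 / 7) * -(1 / 2 : ℝ) = 1 / 7 := by norm_num
        rw [h4, h5]
        linarith
      · simp [he]
    refine (Finset.prod_le_prod (fun e _ => ?_) (fun e _ => e3 e)).trans ?_
    · refine Finset.sum_nonneg fun b _ => ?_
      split_ifs <;> positivity
    · rw [Finset.prod_mul_distrib, Finset.prod_const, Finset.card_univ, Finset.prod_ite_mem,
        Finset.univ_inter, Finset.prod_const, ← Real.exp_nat_mul]
      apply le_of_eq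
      rw [hr]
      congr 2
      ring
  -- tangent line
  have h3 : Real.exp (r / 49) * al f D ≤ ∑ u, f (msk D u) * Real.exp (-(2 / 7) * S u) := by
    have e1 : ∀ u, f (msk D u) * (Real.exp (r / 49) * (1 + (-(2 / 7) * S u - r / 49))) ≤
        f (msk D u) * Real.exp (-(2 / 7) * S u) := by
      intro u
      refine mul_le_mul_of_nonneg_left ?_ (hf _)
      have := Real.add_one_le_exp (-(2 / 7) * S u - r / 49)
      calc Real.exp (r / 49) * (1 + (-(2 / 7) * S u - r / 49))
          ≤ Real.exp (r / 49) * Real.exp (-(2 / 7) * S u - r / 49) :=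
            mul_le_mul_of_nonneg_left (by linarith) (Real.exp_pos _).le
        _ = Real.exp (-(2 / 7) * S u) := by
            rw [← Real.exp_add]
            congr 1
            ring
    refine le_trans ?_ (Finset.sum_le_sum fun u _ => e1 u)
    have e2 : ∑ u, f (msk D u) * (Real.exp (r / 49) * (1 + (-(2 / 7) * S u - r / 49))) =
        Real.exp (r / 49) * ((1 - r / 49) * al f D - (2 / 7) * ∑ u, f (msk D u) * S u) := by
      rw [al, Finset.mul_sum, Finset.mul_sum, ← Finset.sum_sub_distrib, Finset.mul_sum]
      refine Finset.sum_congr rfl fun u _ => ?_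
      ring
    rw [e2]
    refine mul_le_mul_of_nonneg_left ?_ (Real.exp_pos _).le
    linarith
  have h4 : ∑ u, f (msk D u) * Real.exp (-(2 / 7) * S u) ≤
      ∑ u : E → Bool, Real.exp (-(2 / 7) * S u) := by
    refine Finset.sum_le_sum fun u _ => ?_
    have := mul_le_mul_of_nonneg_right (hf1 (msk D u)) (Real.exp_pos (-(2 / 7) * S u)).le
    linarith
  have h5 : Real.exp (r / 49) * al f D ≤ 2 ^ Fintype.card E * Real.exp (r / 98) :=
    h3.trans (h4.trans h2)
  have h6 : Real.exp (r / 49) * Real.exp (-r / 98) = Real.exp (r / 98) := by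
    rw [← Real.exp_add]
    congr 1
    ring
  rw [← h6] at h5
  have h7 : Real.exp (r / 49) * al f D ≤
      Real.exp (r / 49) * (2 ^ Fintype.card E * Real.exp (-r / 98)) := by
    refine h5.trans (le_of_eq ?_)
    ring
  exact le_of_mul_le_mul_left h7 (Real.exp_pos _)

/-- indicator of a biased position -/
noncomputable def bd (f : (E → Bool) → ℝ) (D : E → Bool) (e : E) : ℝ :=
  if 4 * alb f D e true < 3 * alb f D e false then 1 else 0

lemma bd_flp (f : (E → Bool) → ℝ) (D : E → Bool) (e : E) : bd f (flp e D) e = bd f D e := by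
  unfold bd
  rw [alb_flp, alb_flp]

lemma bd_nonneg (f : (E → Bool) → ℝ) (D : E → Bool) (e : E) : 0 ≤ bd f D e := by
  unfold bd
  split_ifs <;> norm_num

lemma bd_le (f : (E → Bool) → ℝ) (D : E → Bool) (e : E) : bd f D e ≤ 1 := by
  unfold bd
  split_ifs <;> norm_num

lemma sum_half (e : E) (F : (E → Bool) → ℝ) (h : ∀ D, F (flp e D) = F D) :
    ∑ D, F D = 2 * ∑ D, F D * (if D e = true then 1 else 0) := by
  have h1 : ∑ D, F D * (if D e = true then 1 else 0) =
      ∑ D, F D * (if D e = true then 0 else 1) := by
    rw [← sum_flp e (fun D => F D * (if D e = true then 1 else 0))]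
    refine Finset.sum_congr rfl fun D _ => ?_
    rw [h D]
    cases hD : D e <;> simp [flp, hD]
  have h2 : ∑ D, F D = ∑ D, F D * (if D e = true then 1 else 0) +
      ∑ D, F D * (if D e = true then 0 else 1) := by
    rw [← Finset.sum_add_distrib]
    refine Finset.sum_congr rfl fun D _ => ?_
    cases D e <;> simp
  rw [h2, ← h1]
  ring

lemma badA {f g : (E → Bool) → ℝ} (hf : ∀ x, 0 ≤ f x) (hf1 : ∀ x, f x ≤ 1)
    (hg : ∀ x, 0 ≤ g x) (hg1 : ∀ x, g x ≤ 1) (r0 : ℝ) (hr0' : 0 ≤ r0) :
    ∑ e, ∑ D, alb f D e false * alb g (ng D) e false * bd f D e ≤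
      4 * r0 * ∑ D, al f D * al g (ng D) +
        4 * (Fintype.card E * 8 ^ Fintype.card E * Real.exp (-r0 / 98)) := by
  set N := Fintype.card E with hN
  have h1 : ∀ e, ∑ D, alb f D e false * alb g (ng D) e false * bd f D e ≤
      ∑ D, 4 * (al f D * al g (ng D) * (bd f D e * (if D e = true then 1 else 0))) := by
    intro e
    rw [sum_half e (fun D => alb f D e false * alb g (ng D) e false * bd f D e), Finset.mul_sum]
    · refine Finset.sum_le_sum fun D _ => ?_
      by_cases hD : D e = true
      · have h2 : alb g (ng D) e false = al g (ng D) := by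
          apply alb_false_of
          simp [ng, hD]
        have h3 : alb f D e false ≤ 2 * al f D := by
          have h4 := alb_add (f := f) hD
          have h5 := alb_nonneg hf D e true
          linarith
        rw [if_pos hD, mul_one, mul_one, h2]
        have h6 : alb f D e false * al g (ng D) * bd f D e ≤
            2 * al f D * al g (ng D) * bd f D e :=
          mul_le_mul_of_nonneg_right (mul_le_mul_of_nonneg_right h3 (al_nonneg hg _))
            (bd_nonneg f D e)
        linarith
      · rw [if_neg hD]
        simp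
    · intro D
      rw [alb_flp, bd_flp, ng_flp, alb_flp]
  have h2 : ∑ e, ∑ D, alb f D e false * alb g (ng D) e false * bd f D e ≤
      ∑ D, 4 * (al f D * al g (ng D) * ∑ e, (bd f D e * (if D e = true then 1 else 0))) := by
    refine (Finset.sum_le_sum fun e _ => h1 e).trans (le_of_eq ?_)
    rw [Finset.sum_comm]
    refine Finset.sum_congr rfl fun D _ => ?_
    rw [Finset.mul_sum, Finset.mul_sum]
  refine h2.trans ?_
  have h3 : ∀ D, 4 * (al f D * al g (ng D) * ∑ e, (bd f D e * (if D e = true then 1 else 0))) ≤
      4 * r0 * (al f D * al g (ng D)) + 4 * (N * 2 ^ N * 2 ^ N * Real.exp (-r0 / 98)) := by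
    intro D
    have hc : ∑ e, (bd f D e * (if D e = true then 1 else 0)) = ((Finset.univ.filter fun e =>
      D e = true ∧ 4 * alb f D e true < 3 * alb f D e false).card : ℝ) := by
      rw [Finset.card_filter]
      push_cast
      refine Finset.sum_congr rfl fun e _ => ?_
      unfold bd
      by_cases h4 : D e = true <;> by_cases h5 : 4 * alb f D e true < 3 * alb f D e false <;>
        simp [h4, h5]
    have hb := bias hf hf1 D
    have hcN : ((Finset.univ.filter fun e =>
      D e = true ∧ 4 * alb f D e true < 3 * alb f D e false).card : ℝ) ≤ N := by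
      exact_mod_cast Finset.card_le_univ _
    rw [hc]
    set r : ℝ := ((Finset.univ.filter fun e =>
      D e = true ∧ 4 * alb f D e true < 3 * alb f D e false).card : ℝ) with hr
    have hr0 : 0 ≤ r := Nat.cast_nonneg _
    have ha := al_nonneg hf D
    have hb0 := al_nonneg hg (ng D)
    have hb1 := al_le hg1 (ng D)
    have hE := Real.exp_pos (-r0 / 98)
    rcases le_total r r0 with h | h
    · have h4 : al f D * al g (ng D) * r ≤ al f D * al g (ng D) * r0 :=
        mul_le_mul_of_nonneg_left h (mul_nonneg ha hb0)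
      have h5 : 0 ≤ 4 * ((N : ℝ) * 2 ^ N * 2 ^ N * Real.exp (-r0 / 98)) := by positivity
      linarith
    · have h4 : al f D ≤ 2 ^ N * Real.exp (-r0 / 98) := by
        refine hb.trans ?_
        refine mul_le_mul_of_nonneg_left ?_ (by positivity)
        apply Real.exp_le_exp.2
        linarith
      have h5 : al f D * al g (ng D) ≤ 2 ^ N * Real.exp (-r0 / 98) * 2 ^ N :=
        mul_le_mul h4 hb1 hb0 (by positivity)
      have h6 : al f D * al g (ng D) * r ≤
          al f D * al g (ng D) * r0 + 2 ^ N * Real.exp (-r0 / 98) * 2 ^ N * N := by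
        have h7 : al f D * al g (ng D) * r ≤ 2 ^ N * Real.exp (-r0 / 98) * 2 ^ N * N :=
          mul_le_mul h5 hcN hr0 (by positivity)
        have h8 : 0 ≤ al f D * al g (ng D) * r0 := mul_nonneg (mul_nonneg ha hb0) hr0'
        linarith
      have h7 : (2 : ℝ) ^ N * Real.exp (-r0 / 98) * 2 ^ N * N =
        N * 2 ^ N * 2 ^ N * Real.exp (-r0 / 98) := by ring
      linarith
  refine (Finset.sum_le_sum fun D _ => h3 D).trans (le_of_eq ?_)
  rw [Finset.sum_add_distrib, Finset.mul_sum, Finset.sum_const, Finset.card_univ]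
  simp only [Fintype.card_fun, Fintype.card_bool, nsmul_eq_mul, Nat.cast_pow, Nat.cast_ofNat]
  rw [← hN]
  have h8 : (8 : ℝ) ^ N = 2 ^ N * 2 ^ N * 2 ^ N := by
    rw [← mul_pow, ← mul_pow]
    norm_num
  rw [h8]
  ring

lemma badB {f g : (E → Bool) → ℝ} (hf : ∀ x, 0 ≤ f x) (hf1 : ∀ x, f x ≤ 1)
    (hg : ∀ x, 0 ≤ g x) (hg1 : ∀ x, g x ≤ 1) (r0 : ℝ) (hr0' : 0 ≤ r0) :
    ∑ e, ∑ D, alb f D e false * alb g (ng D) e false * bd g (ng D) e ≤
      4 * r0 * ∑ D, al f D * al g (ng D) +
        4 * (Fintype.card E * 8 ^ Fintype.card E * Real.exp (-r0 / 98)) := by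
  have h := badA hg hg1 hf hf1 r0 hr0'
  have e1 : ∑ e, ∑ D, alb f D e false * alb g (ng D) e false * bd g (ng D) e =
      ∑ e, ∑ D, alb g D e false * alb f (ng D) e false * bd g D e := by
    refine Finset.sum_congr rfl fun e _ => ?_
    rw [← Equiv.sum_comp ngE (fun D => alb g D e false * alb f (ng D) e false * bd g D e)]
    refine Finset.sum_congr rfl fun D _ => ?_
    show _ = alb g (ng D) e false * alb f (ng (ng D)) e false * bd g (ng D) e
    rw [ng_ng]
    ring
  have e2 : ∑ D, al f D * al g (ng D) = ∑ D, al g D * al f (ng D) := by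
    rw [← Equiv.sum_comp ngE (fun D => al g D * al f (ng D))]
    refine Finset.sum_congr rfl fun D _ => ?_
    show _ = al g (ng D) * al f (ng (ng D))
    rw [ng_ng]
    ring
  rw [e1, e2]
  exact h

/-- Corruption: on a rectangle the mass of the intersecting pairs is not much smaller than that of
the disjoint ones. -/
theorem corrupt {f g : (E → Bool) → ℝ} (hf : ∀ x, 0 ≤ f x) (hf1 : ∀ x, f x ≤ 1)
    (hg : ∀ x, 0 ≤ g x) (hg1 : ∀ x, g x ≤ 1) (r0 : ℝ) (hr0' : 0 ≤ r0) :
    9 / 16 * (∑ e, ∑ D, alb f D e false * alb g (ng D) e false -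
      8 * r0 * ∑ D, al f D * al g (ng D) -
        8 * (Fintype.card E * 8 ^ Fintype.card E * Real.exp (-r0 / 98))) ≤
      ∑ e, ∑ D, alb f D e true * alb g (ng D) e true := by
  have h1 : ∀ e D, 9 / 16 * (alb f D e false * alb g (ng D) e false -
      alb f D e false * alb g (ng D) e false * bd f D e -
      alb f D e false * alb g (ng D) e false * bd g (ng D) e) ≤
      alb f D e true * alb g (ng D) e true := by
    intro e D
    have a0 := alb_nonneg hf D e false
    have a1 := alb_nonneg hf D e true
    have b0 := alb_nonneg hg (ng D) e false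
    have b1 := alb_nonneg hg (ng D) e true
    have hab := mul_nonneg a0 b0
    have hab1 := mul_nonneg a1 b1
    have hbf := bd_nonneg f D e
    have hbg := bd_nonneg g (ng D) e
    by_cases h2 : 4 * alb f D e true < 3 * alb f D e false
    · have h3 : bd f D e = 1 := by
        unfold bd
        rw [if_pos h2]
      have h4 := mul_nonneg hab hbg
      rw [h3]
      linarith
    · by_cases h5 : 4 * alb g (ng D) e true < 3 * alb g (ng D) e false
      · have h3 : bd g (ng D) e = 1 := by
          unfold bd
          rw [if_pos h5]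
        have h4 := mul_nonneg hab hbf
        rw [h3]
        linarith
      · have h3 : bd f D e = 0 := by
          unfold bd
          rw [if_neg h2]
        have h4 : bd g (ng D) e = 0 := by
          unfold bd
          rw [if_neg h5]
        rw [h3, h4]
        push Not at h2 h5
        have h6 : 3 * alb f D e false * (3 * alb g (ng D) e false) ≤
            4 * alb f D e true * (4 * alb g (ng D) e true) :=
          mul_le_mul h2 h5 (by linarith) (by linarith)
        linarith
  have h2 := Finset.sum_le_sum fun e (_ : e ∈ Finset.univ) =>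
    Finset.sum_le_sum fun D (_ : D ∈ (Finset.univ : Finset (E → Bool))) => h1 e D
  refine le_trans ?_ h2
  have hA := badA hf hf1 hg hg1 r0 hr0'
  have hB := badB hf hf1 hg hg1 r0 hr0'
  have e1 : ∑ e, ∑ D, 9 / 16 * (alb f D e false * alb g (ng D) e false -
      alb f D e false * alb g (ng D) e false * bd f D e -
      alb f D e false * alb g (ng D) e false * bd g (ng D) e) =
      9 / 16 * (∑ e, ∑ D, alb f D e false * alb g (ng D) e false -
        ∑ e, ∑ D, alb f D e false * alb g (ng D) e false * bd f D e -
        ∑ e, ∑ D, alb f D e false * alb g (ng D) e false * bd g (ng D) e) := by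
    rw [← Finset.sum_sub_distrib, ← Finset.sum_sub_distrib, Finset.mul_sum]
    refine Finset.sum_congr rfl fun e _ => ?_
    rw [← Finset.sum_sub_distrib, ← Finset.sum_sub_distrib, Finset.mul_sum]
  rw [e1]
  linarith

/-- The corruption lemma for a partition into rectangles. -/
theorem corrupt_sum {T : Type} [Fintype T] [DecidableEq T] (Tr : (E → Bool) → (E → Bool) → T)
    (A B : T → (E → Bool) → Prop) (hTr : ∀ x y t, Tr x y = t ↔ A t x ∧ B t y)
    (No : T → Prop) (r0 : ℝ) (hr0' : 0 ≤ r0) :
    open Classical in
    9 / 16 * ((∑ e, ∑ D, ∑ u, ∑ v, (if No (Tr (Function.update (msk D u) e false)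
        (Function.update (msk (ng D) v) e false)) then (1 : ℝ) else 0)) -
      8 * r0 * 8 ^ Fintype.card E -
        Fintype.card T * (8 * (Fintype.card E * 8 ^ Fintype.card E * Real.exp (-r0 / 98)))) ≤
      ∑ e, ∑ D, ∑ u, ∑ v, (if No (Tr (Function.update (msk D u) e true)
        (Function.update (msk (ng D) v) e true)) then (1 : ℝ) else 0) := by
  classical
  set N := Fintype.card E with hN
  let f : T → (E → Bool) → ℝ := fun t x => if A t x then 1 else 0
  let g : T → (E → Bool) → ℝ := fun t y => if B t y then 1 else 0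
  have f0 : ∀ t x, 0 ≤ f t x := by
    intro t x
    simp only [f]
    split_ifs <;> norm_num
  have f1 : ∀ t x, f t x ≤ 1 := by
    intro t x
    simp only [f]
    split_ifs <;> norm_num
  have g0 : ∀ t x, 0 ≤ g t x := by
    intro t x
    simp only [g]
    split_ifs <;> norm_num
  have g1 : ∀ t x, g t x ≤ 1 := by
    intro t x
    simp only [g]
    split_ifs <;> norm_num
  have hfg : ∀ x y t, f t x * g t y = if Tr x y = t then 1 else 0 := by
    intro x y t
    by_cases h : Tr x y = t
    · rw [if_pos h]
      obtain ⟨h1, h2⟩ := (hTr x y t).1 h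
      simp [f, g, h1, h2]
    · rw [if_neg h]
      by_cases h1 : A t x
      · by_cases h2 : B t y
        · exact absurd ((hTr x y t).2 ⟨h1, h2⟩) h
        · simp [g, h2]
      · simp [f, h1]
  have hNo : ∀ x y, (if No (Tr x y) then (1 : ℝ) else 0) =
      ∑ t ∈ Finset.univ.filter No, f t x * g t y := by
    intro x y
    rw [Finset.sum_congr rfl fun t _ => hfg x y t, Finset.sum_ite_eq]
    simp
  have hb : ∀ b : Bool, (∑ e, ∑ D, ∑ u, ∑ v, (if No (Tr (Function.update (msk D u) e b)
        (Function.update (msk (ng D) v) e b)) then (1 : ℝ) else 0)) =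
      ∑ t ∈ Finset.univ.filter No, ∑ e, ∑ D, alb (f t) D e b * alb (g t) (ng D) e b := by
    intro b
    symm
    rw [Finset.sum_comm]
    refine Finset.sum_congr rfl fun e _ => ?_
    rw [Finset.sum_comm]
    refine Finset.sum_congr rfl fun D _ => ?_
    have h1 : ∀ t, alb (f t) D e b * alb (g t) (ng D) e b = ∑ u, ∑ v,
        f t (Function.update (msk D u) e b) * g t (Function.update (msk (ng D) v) e b) := by
      intro t
      rw [alb, alb, Finset.sum_mul_sum]
    rw [Finset.sum_congr rfl fun t _ => h1 t, Finset.sum_comm]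
    refine Finset.sum_congr rfl fun u _ => ?_
    rw [Finset.sum_comm]
    refine Finset.sum_congr rfl fun v _ => ?_
    rw [hNo]
  rw [hb false, hb true]
  have hM : ∑ t ∈ Finset.univ.filter No, ∑ D, al (f t) D * al (g t) (ng D) ≤ (8 : ℝ) ^ N := by
    have h1 : ∑ t ∈ Finset.univ.filter No, ∑ D, al (f t) D * al (g t) (ng D) =
        ∑ D, ∑ u, ∑ v, ∑ t ∈ Finset.univ.filter No, f t (msk D u) * g t (msk (ng D) v) := by
      rw [Finset.sum_comm]
      refine Finset.sum_congr rfl fun D _ => ?_
      have h1 : ∀ t, al (f t) D * al (g t) (ng D) = ∑ u, ∑ v,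
          f t (msk D u) * g t (msk (ng D) v) := by
        intro t
        rw [al, al, Finset.sum_mul_sum]
      rw [Finset.sum_congr rfl fun t _ => h1 t, Finset.sum_comm]
      refine Finset.sum_congr rfl fun u _ => ?_
      rw [Finset.sum_comm]
    rw [h1]
    have h2 : ∀ D u v, ∑ t ∈ Finset.univ.filter No, f t (msk D u) * g t (msk (ng D) v) ≤ 1 := by
      intro D u v
      rw [← hNo]
      split_ifs <;> norm_num
    refine (Finset.sum_le_sum fun D _ => Finset.sum_le_sum fun u _ =>
      Finset.sum_le_sum fun v _ => h2 D u v).trans (le_of_eq ?_)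
    simp only [Finset.sum_const, Finset.card_univ, Fintype.card_fun, Fintype.card_bool,
      nsmul_eq_mul, Nat.cast_pow, Nat.cast_ofNat, mul_one]
    rw [← hN]
    have h8 : (8 : ℝ) ^ N = 2 ^ N * (2 ^ N * 2 ^ N) := by
      rw [← mul_pow, ← mul_pow]
      norm_num
    rw [h8]
  have hS := Finset.sum_le_sum fun t (_ : t ∈ Finset.univ.filter No) =>
    corrupt (f0 t) (f1 t) (g0 t) (g1 t) r0 hr0'
  refine le_trans ?_ hS
  rw [← Finset.mul_sum]
  refine mul_le_mul_of_nonneg_left ?_ (by norm_num)
  rw [Finset.sum_sub_distrib, Finset.sum_sub_distrib, ← Finset.mul_sum, Finset.sum_const,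
    nsmul_eq_mul, ← hN]
  have hc : ((Finset.univ.filter No).card : ℝ) ≤ Fintype.card T := by
    exact_mod_cast Finset.card_le_univ _
  have hE : 0 ≤ 8 * ((N : ℝ) * 8 ^ N * Real.exp (-r0 / 98)) := by positivity
  have h3 := mul_le_mul_of_nonneg_right hc hE
  have h4 := mul_le_mul_of_nonneg_left hM (by positivity : (0 : ℝ) ≤ 8 * r0)
  linarith

end Pool.Agent.UT
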