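import Mathlib

/-!
# Randomised machines with several heads and few jumps on the upper triangular adjacency matrix

The input, a simple graph on `Fin n`, is written on a read-only tape with `n * (n - 1) / 2` cells:
one cell for every pair `i < j` of vertices, in lexicographic order (the upper triangle of the
adjacency matrix, row by row), holding the bit that says whether `i` and `j` are adjacent. A machine
has `k` heads on this tape, a memory with states in `Q` and a random seed `ω : Ω`.
-/

open MeasureTheory

namespace Pool.Agent.UT

/-- The cells of the tape: the pairs `i < j` in lexicographic order. -/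
abbrev Cell (n : ℕ) : Type := {p : Fin n ×ₗ Fin n // (ofLex p).1 < (ofLex p).2}

/-- Configurations: a memory state and the positions of the `k` heads. -/
abbrev Conf (n k : ℕ) (Q : Type) : Type := Q × (Fin k → Cell n)

/-- The bits scanned by the heads: the cell of `i < j` says whether `i` and `j` are adjacent. -/
def scan {n k : ℕ} (G : SimpleGraph (Fin n)) (pos : Fin k → Cell n) : Fin k → Prop :=
  fun h => G.Adj (ofLex (pos h).1).1 (ofLex (pos h).1).2

/-- A randomised, nonuniform machine with `k` read-only heads on the tape, with memory states `Q`
and random seeds `Ω`. -/
structure Machine (n k : ℕ) (Q Ω : Type) where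
  /-- initial configuration -/
  start : Ω → Conf n k Q
  /-- `step ω t c b` is the next configuration when at time `t` the machine is in configuration `c`
  and scans the bits `b` (arbitrary function; the heads may go to arbitrary cells) -/
  step : Ω → ℕ → Conf n k Q → (Fin k → Prop) → Conf n k Q
  /-- `answer c = some b`: in configuration `c` the machine stops with the answer `b`
  (`true`: there is a triangle) -/
  answer : Conf n k Q → Option Bool

/-- The configuration after `t` steps on input `G` with seed `ω`; a machine that has answered
does not move any more. -/
def Machine.run {n k : ℕ} {Q Ω : Type} (M : Machine n k Q Ω) (ω : Ω) (G : SimpleGraph (Fin n)) :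
    ℕ → Conf n k Q
  | 0 => M.start ω
  | t + 1 =>
    if (M.answer (M.run ω G t)).isSome then M.run ω G t
    else M.step ω t (M.run ω G t) (scan G (M.run ω G t).2)

/-- The step from `c` to `c'` is a jump: some head moves by more than one cell (in one step it
neither stays where it is nor goes to the next or to the previous cell). -/
def Jump {n k : ℕ} {Q : Type} (c c' : Conf n k Q) : Prop :=
  ∃ h, ¬ (c.2 h = c'.2 h ∨ c.2 h ⋖ c'.2 h ∨ c'.2 h ⋖ c.2 h)

/-- `M` detects triangles in `n`-vertex graphs with error probability at most `1 / 3` on every
input, the seed being distributed according to `μ`. (First clause: the configuration at every time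
is a random variable.) -/
def Machine.DetectsTriangles {n k : ℕ} {Q Ω : Type} [MeasurableSpace Ω] (M : Machine n k Q Ω)
    (μ : Measure Ω) : Prop :=
  (∀ (G : SimpleGraph (Fin n)) (t : ℕ) (c : Conf n k Q), MeasurableSet {ω | M.run ω G t = c}) ∧
    ∀ G : SimpleGraph (Fin n), 2 / 3 ≤
      μ.real {ω | ∃ t b, M.answer (M.run ω G t) = some b ∧ (b = true ↔ ¬ G.CliqueFree 3)}

/-- The expected running time of `M` is at most `T` on every input: the expected number of steps
made before time `m`, which is the sum over `t < m` of the probability that `M` has not yet answered
at time `t`, is at most `T` for every `m`. -/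
def Machine.ExpectedTimeLE {n k : ℕ} {Q Ω : Type} [MeasurableSpace Ω] (M : Machine n k Q Ω)
    (μ : Measure Ω) (T : ℝ) : Prop :=
  ∀ (G : SimpleGraph (Fin n)) (m : ℕ),
    ∑ t ∈ Finset.range m, μ.real {ω | M.answer (M.run ω G t) = none} ≤ T

/-- The expected number of jumps of `M` is at most `J` on every input: the sum over `t < m` of the
probability that the step made at time `t` is a jump is at most `J` for every `m`. -/
def Machine.ExpectedJumpsLE {n k : ℕ} {Q Ω : Type} [MeasurableSpace Ω] (M : Machine n k Q Ω)
    (μ : Measure Ω) (J : ℝ) : Prop :=
  ∀ (G : SimpleGraph (Fin n)) (m : ℕ),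
    ∑ t ∈ Finset.range m, μ.real {ω | Jump (M.run ω G t) (M.run ω G (t + 1))} ≤ J

end Pool.Agent.UT
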