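import Mathlib
import Pool.Agent.Lib_helper21.UT.Defs

/-!
# The geometry of the tape
-/

set_option linter.unusedSectionVars false

namespace Pool.Agent.UT

open Finset

variable {n : ℕ}

/-- the row of a cell -/
def row (c : Cell n) : ℕ := ((ofLex c.1).1 : ℕ)

/-- the column of a cell -/
def col (c : Cell n) : ℕ := ((ofLex c.1).2 : ℕ)

lemma row_lt_col (c : Cell n) : row c < col c := c.2

lemma col_lt (c : Cell n) : col c < n := (ofLex c.1).2.2

lemma row_lt (c : Cell n) : row c < n := (ofLex c.1).1.2

lemma cell_lt_iff (c c' : Cell n) :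
    c < c' ↔ row c < row c' ∨ (row c = row c' ∧ col c < col c') := by
  rw [← Subtype.coe_lt_coe, Prod.Lex.lt_iff]
  unfold row col
  constructor
  · rintro (h | ⟨h1, h2⟩)
    · exact Or.inl h
    · exact Or.inr ⟨congrArg Fin.val h1, h2⟩
  · rintro (h | ⟨h1, h2⟩)
    · exact Or.inl h
    · exact Or.inr ⟨Fin.ext h1, h2⟩

/-- the cell in row `i` and column `j` -/
def mkc (i j : ℕ) (h : i < j) (hj : j < n) : Cell n :=
  ⟨toLex (⟨i, h.trans hj⟩, ⟨j, hj⟩), h⟩

lemma row_mkc (i j : ℕ) (h : i < j) (hj : j < n) : row (mkc i j h hj) = i := rfl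
lemma col_mkc (i j : ℕ) (h : i < j) (hj : j < n) : col (mkc i j h hj) = j := rfl

lemma cell_ext {c c' : Cell n} (h1 : row c = row c') (h2 : col c = col c') : c = c' := by
  apply Subtype.ext
  have : ofLex c.1 = ofLex c'.1 := Prod.ext (Fin.ext h1) (Fin.ext h2)
  exact this

/-- the number of cells before `c` -/
noncomputable def rk (c : Cell n) : ℕ := by
  classical exact (Finset.univ.filter fun z : Cell n => z < c).card

lemma rk_cov {c c' : Cell n} (h : c ⋖ c') : rk c' = rk c + 1 := by
  classical
  unfold rk
  have h1 : (Finset.univ.filter fun z : Cell n => z < c') =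
      insert c (Finset.univ.filter fun z : Cell n => z < c) := by
    ext z
    simp only [Finset.mem_filter, Finset.mem_univ, true_and, Finset.mem_insert]
    constructor
    · intro hz
      rcases lt_trichotomy z c with h2 | h2 | h2
      · exact Or.inr h2
      · exact Or.inl h2
      · exact absurd hz (h.2 h2)
    · rintro (rfl | hz)
      · exact h.1
      · exact hz.trans h.1
  rw [h1, Finset.card_insert_of_notMem (by simp)]

/-- two cells at distance at most one -/
def Adj1 (c c' : Cell n) : Prop := c = c' ∨ c ⋖ c' ∨ c' ⋖ c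

lemma Adj1.rk_le {c c' : Cell n} (h : Adj1 c c') : rk c' ≤ rk c + 1 ∧ rk c ≤ rk c' + 1 := by
  rcases h with rfl | h | h
  · omega
  · have := rk_cov h
    omega
  · have := rk_cov h
    omega

lemma rk_far {c c' : Cell n} {a b m : ℕ} (h : row c < a) (h' : b ≤ row c') (hb : b + m ≤ n)
    (hab : a ≤ b) : rk c + 1 + (b - a) * m ≤ rk c' := by
  classical
  let φ : Fin (b - a) × Fin m → Cell n := fun p =>
    mkc (a + p.1) (a + p.1 + 1 + p.2) (by omega) (by have := p.1.2; have := p.2.2; omega)
  have hφ : Function.Injective φ := by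
    intro p q hpq
    have h1 : row (φ p) = row (φ q) := by rw [hpq]
    have h2 : col (φ p) = col (φ q) := by rw [hpq]
    simp only [φ, row_mkc, col_mkc] at h1 h2
    have h3 : (p.1 : ℕ) = q.1 := by omega
    have h4 : (p.2 : ℕ) = q.2 := by omega
    exact Prod.ext (Fin.ext h3) (Fin.ext h4)
  have hrow : ∀ p, a ≤ row (φ p) ∧ row (φ p) < b := by
    intro p
    have := p.1.2
    simp only [φ, row_mkc]
    omega
  have hcard : (Finset.univ.image φ).card = (b - a) * m := by
    rw [Finset.card_image_of_injective _ hφ, Finset.card_univ, Fintype.card_prod, Fintype.card_fin,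
      Fintype.card_fin]
  unfold rk
  rw [← hcard, ← Finset.card_insert_of_notMem (a := c)
    (s := Finset.univ.filter fun z : Cell n => z < c) (by simp), ← Finset.card_union_of_disjoint]
  · apply Finset.card_le_card
    intro z hz
    rw [Finset.mem_filter]
    refine ⟨Finset.mem_univ _, ?_⟩
    rw [cell_lt_iff]
    rcases Finset.mem_union.1 hz with hz | hz
    · rcases Finset.mem_insert.1 hz with rfl | hz
      · left
        omega
      · have h1 := (Finset.mem_filter.1 hz).2
        rw [cell_lt_iff] at h1
        left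
        omega
    · obtain ⟨p, _, rfl⟩ := Finset.mem_image.1 hz
      have := hrow p
      left
      omega
  · rw [Finset.disjoint_left]
    intro z hz hz'
    obtain ⟨p, _, rfl⟩ := Finset.mem_image.1 hz'
    have h1 := hrow p
    rcases Finset.mem_insert.1 hz with h2 | h2
    · rw [h2] at h1
      omega
    · have h3 := (Finset.mem_filter.1 h2).2
      rw [cell_lt_iff] at h3
      omega

/-- the block of `w` rows that contains the cell; the blocks from `top` on are identified -/
def sr (w top : ℕ) (c : Cell n) : ℕ := min (row c / w) top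

lemma sr_near {w top m : ℕ} (hw : 0 < w) (htop : top * w + m ≤ n) {c c' : Cell n}
    (h : rk c' ≤ rk c + w * m) : sr w top c' ≤ sr w top c + 1 := by
  by_contra hcon
  push Not at hcon
  set s := sr w top c with hs
  have h1 : s < top := by
    have : sr w top c' ≤ top := min_le_right _ _
    omega
  have h2 : row c / w = s := by
    rw [hs]
    unfold sr
    rw [hs] at h1
    unfold sr at h1
    rcases le_total (row c / w) top with h3 | h3
    · exact (min_eq_left h3).symm
    · rw [min_eq_right h3] at h1
      omega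
  have h3 : s + 2 ≤ row c' / w := by
    have : sr w top c' ≤ row c' / w := min_le_left _ _
    omega
  have h4 : row c < (s + 1) * w := by
    rw [← Nat.div_lt_iff_lt_mul hw]
    omega
  have h5 : (s + 2) * w ≤ row c' := (Nat.le_div_iff_mul_le hw).1 h3
  have h6 : s + 2 ≤ top := by
    have : sr w top c' ≤ top := min_le_right _ _
    omega
  have h7 : (s + 2) * w ≤ top * w := Nat.mul_le_mul_right _ h6
  have h8 := rk_far (m := m) h4 h5 (by omega) (by nlinarith)
  have h9 : (s + 2) * w - (s + 1) * w = w := by
    rw [← Nat.sub_mul]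
    have : s + 2 - (s + 1) = 1 := by omega
    rw [this, one_mul]
  rw [h9] at h8
  omega

/-- slow motion -/
lemma rk_path (p : ℕ → Cell n) (t0 d : ℕ) (h : ∀ i < d, Adj1 (p (t0 + i)) (p (t0 + i + 1))) :
    rk (p (t0 + d)) ≤ rk (p t0) + d ∧ rk (p t0) ≤ rk (p (t0 + d)) + d := by
  induction d with
  | zero => simp
  | succ d ih =>
    have h1 := ih (fun i hi => h i (by omega))
    have h2 := (h d (by omega)).rk_le
    have h3 : t0 + (d + 1) = t0 + d + 1 := by omega
    rw [h3]
    omega

lemma sr_path {w top m : ℕ} (hw : 0 < w) (htop : top * w + m ≤ n) (p : ℕ → Cell n) (t0 d : ℕ)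
    (h : ∀ i < d, Adj1 (p (t0 + i)) (p (t0 + i + 1))) (hd : d ≤ w * m) :
    sr w top (p (t0 + d)) ≤ sr w top (p t0) + 1 ∧ sr w top (p t0) ≤ sr w top (p (t0 + d)) + 1 := by
  have h1 := rk_path p t0 d h
  exact ⟨sr_near hw htop (by omega), sr_near hw htop (by omega)⟩

end Pool.Agent.UT
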