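import Mathlib
import Pool.Agent.Lib_helper21.UT.Tape

/-!
# Dense Ruzsa-Szemeredi graphs laid out on the tape
-/

set_option linter.unusedSectionVars false

namespace Pool.Agent.UT

open Finset

/-- the layout: `G` cores of `w` rows, in the rows from `p * w` on -/
structure Lay (n : ℕ) where
  w : ℕ
  G : ℕ
  p : ℕ
  D : Finset ℕ
  hw : 0 < w
  hGp : G < p
  hn : 3 * (p * w) ≤ n
  hD : ∀ d ∈ D, d < (p - G) * w
  free : ThreeAPFree (D : Set ℕ)

variable {n : ℕ} (L : Lay n)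

/-- the coordinates of a core -/
abbrev Lay.E : Type := Fin L.w × L.D

/-- the data of a graph: the bits of all cores -/
abbrev Lay.Dat : Type := Fin L.G → (L.E → Bool) × (L.E → Bool)

/-- the number of the middle vertex -/
def Lay.mid (κ : Fin L.G) (a : Fin L.w) : ℕ := κ * L.w + a

/-- the three kinds of edges from `r` to `c`, `r < c` -/
def Lay.ed (F : L.Dat) (r c : ℕ) : Prop :=
  (∃ (κ : Fin L.G) (e : L.E), r + e.2 = L.mid κ e.1 + (L.p - L.G) * L.w ∧
      c = L.p * L.w + L.mid κ e.1 ∧ (F κ).1 e = true) ∨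
    (∃ (κ : Fin L.G) (e : L.E), r = L.p * L.w + L.mid κ e.1 ∧
      c = 2 * (L.p * L.w) + L.mid κ e.1 + e.2 ∧ (F κ).2 e = true) ∨
    (∃ (κ : Fin L.G) (e : L.E), r + e.2 = L.mid κ e.1 + (L.p - L.G) * L.w ∧
      c = 2 * (L.p * L.w) + L.mid κ e.1 + e.2)

lemma Lay.split : L.G * L.w + (L.p - L.G) * L.w = L.p * L.w := by
  rw [← Nat.add_mul]
  have := L.hGp
  congr 1
  omega

lemma Lay.mid_lt (κ : Fin L.G) (a : Fin L.w) : L.mid κ a < L.G * L.w := by
  unfold Lay.mid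
  have h1 : ((κ : ℕ) + 1) * L.w ≤ L.G * L.w := Nat.mul_le_mul_right _ κ.2
  have h2 := a.2
  rw [Nat.add_mul, one_mul] at h1
  omega

lemma Lay.mid_inj {κ κ' : Fin L.G} {a a' : Fin L.w} (h : L.mid κ a = L.mid κ' a') :
    κ = κ' ∧ a = a' := by
  unfold Lay.mid at h
  have h1 : ((κ : ℕ) * L.w + a) / L.w = κ := by
    rw [mul_comm, Nat.mul_add_div L.hw, Nat.div_eq_of_lt a.2, add_zero]
  have h2 : ((κ' : ℕ) * L.w + a') / L.w = κ' := by
    rw [mul_comm, Nat.mul_add_div L.hw, Nat.div_eq_of_lt a'.2, add_zero]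
  rw [h, h2] at h1
  have h3 : κ = κ' := Fin.ext h1.symm
  subst h3
  exact ⟨rfl, Fin.ext (by omega)⟩

lemma Lay.row_div (κ : Fin L.G) (a : Fin L.w) : (L.p * L.w + L.mid κ a) / L.w = L.p + κ := by
  unfold Lay.mid
  rw [← add_assoc, ← Nat.add_mul, mul_comm, Nat.mul_add_div L.hw, Nat.div_eq_of_lt a.2, add_zero]

variable {L}

/-- the position of the end points of an edge -/
lemma Lay.ed_pos {F : L.Dat} {r c : ℕ} (h : L.ed F r c) :
    (r < L.p * L.w ∧ L.p * L.w ≤ c) ∨ (L.p * L.w ≤ r ∧ r < 2 * (L.p * L.w) ∧ 2 * (L.p * L.w) ≤ c) := by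
  have hs := L.split
  have hpos : 0 < (L.p - L.G) * L.w := Nat.mul_pos (by have := L.hGp; omega) L.hw
  rcases h with ⟨κ, e, h1, h2, _⟩ | ⟨κ, e, h1, h2, _⟩ | ⟨κ, e, h1, h2⟩
  · have := L.mid_lt κ e.1
    left
    omega
  · have := L.mid_lt κ e.1
    right
    omega
  · have := L.mid_lt κ e.1
    left
    omega

lemma Lay.ed_lt {F : L.Dat} {r c : ℕ} (h : L.ed F r c) : r < c := by
  rcases L.ed_pos h with h | h <;> omega

/-- the graph -/
def Lay.graph (F : L.Dat) : SimpleGraph (Fin n) where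
  Adj u v := L.ed F u v ∨ L.ed F v u
  symm := ⟨fun _ _ h => h.symm⟩
  loopless := ⟨fun u h => by
    rcases h with h | h <;> exact absurd (Lay.ed_lt h) (lt_irrefl _)⟩

lemma Lay.adj_iff (F : L.Dat) {u v : Fin n} (h : u < v) : (L.graph F).Adj u v ↔ L.ed F u v := by
  constructor
  · rintro (h1 | h1)
    · exact h1
    · have := Lay.ed_lt h1
      exact absurd h (by rw [Fin.lt_def]; omega)
  · exact Or.inl

/-- the only triangles are the planned ones -/
lemma Lay.tri {F : L.Dat} {u v z : ℕ} (h1 : L.ed F u v) (h2 : L.ed F v z) (h3 : L.ed F u z) :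
    ∃ κ e, (F κ).1 e = true ∧ (F κ).2 e = true := by
  have hs := L.split
  have p1 := L.ed_pos h1
  have p2 := L.ed_pos h2
  have p3 := L.ed_pos h3
  have hv : L.p * L.w ≤ v ∧ v < 2 * (L.p * L.w) := by omega
  rcases h1 with ⟨κ1, e1, a1, b1, c1⟩ | ⟨κ1, e1, a1, b1, _⟩ | ⟨κ1, e1, a1, b1⟩
  rotate_left
  · omega
  · omega
  rcases h2 with ⟨κ2, e2, a2, b2, _⟩ | ⟨κ2, e2, a2, b2, c2⟩ | ⟨κ2, e2, a2, b2⟩
  · have := L.mid_lt κ2 e2.1
    omega
  rotate_left
  · have := L.mid_lt κ2 e2.1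
    omega
  rcases h3 with ⟨κ3, e3, a3, b3, _⟩ | ⟨κ3, e3, a3, b3, _⟩ | ⟨κ3, e3, a3, b3⟩
  · have := L.mid_lt κ3 e3.1
    omega
  · have := L.mid_lt κ1 e1.1
    omega
  have h12 : L.mid κ1 e1.1 = L.mid κ2 e2.1 := by omega
  obtain ⟨hκ, ha⟩ := L.mid_inj h12
  have hap : (e1.2 : ℕ) + e2.2 = e3.2 + e3.2 := by omega
  have h13 := L.free e1.2.2 e3.2.2 e2.2.2 hap
  have h14 : (e1.2 : ℕ) = e2.2 := by omega
  have he : e1 = e2 := Prod.ext ha (Subtype.ext h14)
  refine ⟨κ1, e1, c1, ?_⟩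
  rw [hκ, he]
  exact c2

theorem Lay.cliqueFree (F : L.Dat) (h : ∀ κ e, (F κ).1 e = true → (F κ).2 e = false) :
    (L.graph F).CliqueFree 3 := by
  intro t ht
  rw [SimpleGraph.is3Clique_iff] at ht
  obtain ⟨a, b, c, hab, hac, hbc, _⟩ := ht
  have key : ∀ a b c : Fin n, (L.graph F).Adj a b → (L.graph F).Adj a c → (L.graph F).Adj b c →
      a < b → b < c → False := by
    intro a b c hab hac hbc h1 h2
    rw [Lay.adj_iff F h1] at hab
    rw [Lay.adj_iff F h2] at hbc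
    rw [Lay.adj_iff F (h1.trans h2)] at hac
    obtain ⟨κ, e, h3, h4⟩ := Lay.tri hab hbc hac
    rw [h κ e h3] at h4
    exact absurd h4 (by decide)
  rcases lt_trichotomy a b with h1 | h1 | h1
  · rcases lt_trichotomy b c with h2 | h2 | h2
    · exact key a b c hab hac hbc h1 h2
    · exact hbc.ne h2
    · rcases lt_trichotomy a c with h3 | h3 | h3
      · exact key a c b hac hab hbc.symm h3 h2
      · exact hac.ne h3
      · exact key c a b hac.symm hbc.symm hab h3 h1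
  · exact hab.ne h1
  · rcases lt_trichotomy a c with h2 | h2 | h2
    · exact key b a c hab.symm hbc hac h1 h2
    · exact hac.ne h2
    · rcases lt_trichotomy b c with h3 | h3 | h3
      · exact key b c a hbc hab.symm hac.symm h3 h2
      · exact hbc.ne h3
      · exact key c b a hbc.symm hac.symm hab.symm h3 h1

theorem Lay.not_cliqueFree (F : L.Dat) (κ : Fin L.G) (e : L.E) (hx : (F κ).1 e = true)
    (hy : (F κ).2 e = true) : ¬ (L.graph F).CliqueFree 3 := by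
  have hs := L.split
  have hm := L.mid_lt κ e.1
  have hd := L.hD e.2 e.2.2
  have hn := L.hn
  intro hfree
  let u : Fin n := ⟨L.mid κ e.1 + (L.p - L.G) * L.w - e.2, by omega⟩
  let v : Fin n := ⟨L.p * L.w + L.mid κ e.1, by omega⟩
  let z : Fin n := ⟨2 * (L.p * L.w) + L.mid κ e.1 + e.2, by omega⟩
  have huv : (L.graph F).Adj u v := by
    left
    left
    exact ⟨κ, e, by show L.mid κ e.1 + (L.p - L.G) * L.w - e.2 + e.2 = _; omega, rfl, hx⟩
  have hvz : (L.graph F).Adj v z := by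
    left
    right
    left
    exact ⟨κ, e, rfl, rfl, hy⟩
  have huz : (L.graph F).Adj u z := by
    left
    right
    right
    exact ⟨κ, e, by show L.mid κ e.1 + (L.p - L.G) * L.w - e.2 + e.2 = _; omega, rfl⟩
  exact hfree {u, v, z} (SimpleGraph.is3Clique_iff.2 ⟨u, v, z, huv, huz, hvz, rfl⟩)

/-- which data an edge bit depends on -/
lemma Lay.ed_congr {F F' : L.Dat} {r c : ℕ}
    (h2 : ∀ κ : Fin L.G, r / L.w = L.p + κ → (F κ).2 = (F' κ).2)
    (h1 : ∀ κ : Fin L.G, c / L.w = L.p + κ → r / L.w < L.p → (F κ).1 = (F' κ).1) :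
    L.ed F r c ↔ L.ed F' r c := by
  have hs := L.split
  have hpos : 0 < (L.p - L.G) * L.w := Nat.mul_pos (by have := L.hGp; omega) L.hw
  constructor
  · rintro (⟨κ, e, a, b, hx⟩ | ⟨κ, e, a, b, hy⟩ | ⟨κ, e, a, b⟩)
    · left
      refine ⟨κ, e, a, b, ?_⟩
      rw [← h1 κ (by rw [b, L.row_div])]
      · exact hx
      · rw [Nat.div_lt_iff_lt_mul L.hw]
        have := L.mid_lt κ e.1
        omega
    · right
      left
      refine ⟨κ, e, a, b, ?_⟩
      rw [← h2 κ (by rw [a, L.row_div])]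
      exact hy
    · exact Or.inr (Or.inr ⟨κ, e, a, b⟩)
  · rintro (⟨κ, e, a, b, hx⟩ | ⟨κ, e, a, b, hy⟩ | ⟨κ, e, a, b⟩)
    · left
      refine ⟨κ, e, a, b, ?_⟩
      rw [h1 κ (by rw [b, L.row_div])]
      · exact hx
      · rw [Nat.div_lt_iff_lt_mul L.hw]
        have := L.mid_lt κ e.1
        omega
    · right
      left
      refine ⟨κ, e, a, b, ?_⟩
      rw [h2 κ (by rw [a, L.row_div])]
      exact hy
    · exact Or.inr (Or.inr ⟨κ, e, a, b⟩)

end Pool.Agent.UT
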