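import Mathlib
import Pool.Agent.Lib_helper21.UT.Graph
import Pool.Agent.Lib_helper21.UT.TwoParty

/-!
# Simulation of a machine by two players
-/

set_option linter.unusedSectionVars false

namespace Pool.Agent.UT

open Finset

section Runs

variable {n k : ℕ} {Q Ω : Type} (M : Machine n k Q Ω) (ω : Ω) (G : SimpleGraph (Fin n))

lemma run_stable {t t' : ℕ} (h : t ≤ t') (hs : (M.answer (M.run ω G t)).isSome) :
    M.run ω G t' = M.run ω G t := by
  induction t', h using Nat.le_induction with
  | base => rfl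
  | succ t' _ ih =>
    show (if (M.answer (M.run ω G t')).isSome then M.run ω G t' else _) = _
    rw [ih, if_pos hs]

lemma ans_none {t t' : ℕ} (h : t ≤ t') (hs : M.answer (M.run ω G t') = none) :
    M.answer (M.run ω G t) = none := by
  by_contra hcon
  have h1 : (M.answer (M.run ω G t)).isSome := Option.ne_none_iff_isSome.1 hcon
  rw [run_stable M ω G h h1] at hs
  exact hcon hs

lemma ans_some {t t' : ℕ} {b b' : Bool} (hs : M.answer (M.run ω G t) = some b)
    (hs' : M.answer (M.run ω G t') = some b') : b = b' := by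
  rcases le_total t t' with h | h
  · have := run_stable M ω G h (by rw [hs]; rfl)
    rw [this, hs] at hs'
    exact Option.some.inj hs'
  · have := run_stable M ω G h (by rw [hs']; rfl)
    rw [this, hs'] at hs
    exact (Option.some.inj hs).symm

lemma run_succ {t : ℕ} (h : M.answer (M.run ω G t) = none) :
    M.run ω G (t + 1) = M.step ω t (M.run ω G t) (scan G (M.run ω G t).2) := by
  show (if (M.answer (M.run ω G t)).isSome then M.run ω G t else _) = _
  rw [h]
  rfl

open Classical in
/-- time since the last cut: a cut is made at every jump and after `Lw` steps -/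
noncomputable def ageT (Lw : ℕ) : ℕ → ℕ
  | 0 => 0
  | t + 1 => if Jump (M.run ω G t) (M.run ω G (t + 1)) ∨ Lw ≤ ageT Lw t + 1 then 0
      else ageT Lw t + 1

lemma ageT_le (Lw : ℕ) (t : ℕ) : ageT M ω G Lw t ≤ t := by
  induction t with
  | zero => exact le_rfl
  | succ t ih =>
    unfold ageT
    split_ifs <;> omega

lemma ageT_lt {Lw : ℕ} (h : 0 < Lw) (t : ℕ) : ageT M ω G Lw t < Lw := by
  cases t with
  | zero => exact h
  | succ t =>
    unfold ageT
    split_ifs <;> omega

/-- no jump since the last cut -/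
lemma ageT_slow (Lw : ℕ) (t : ℕ) (i : ℕ) (h1 : t - ageT M ω G Lw t ≤ i) (h2 : i < t) :
    ¬ Jump (M.run ω G i) (M.run ω G (i + 1)) := by
  induction t with
  | zero => omega
  | succ t ih =>
    unfold ageT at h1
    split_ifs at h1 with h3
    · omega
    · push Not at h3
      rcases Nat.lt_or_ge i t with h4 | h4
      · apply ih _ h4
        have := ageT_le M ω G Lw t
        omega
      · have : i = t := by omega
        rw [this]
        exact h3.1

end Runs

section Sim

variable {n k : ℕ} {Q Ω : Type} (M : Machine n k Q Ω) (ω : Ω) (L : Lay n) (H : ℕ)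

/-- length of a segment -/
def Lay.len : ℕ := L.w * (L.p * L.w)

lemma Lay.len_pos : 0 < L.len := by
  unfold Lay.len
  have h1 := L.hw
  have h2 := L.hGp
  have h3 : 0 < L.p := by omega
  positivity

/-- the block of the cell -/
def Lay.blk (c : Cell n) : ℕ := sr L.w (L.p + L.G) c

/-- some head is near the core `κ` -/
def Lay.near (κ : Fin L.G) (c : Conf n k Q) : Prop :=
  ∃ h, L.blk (c.2 h) ≤ L.p + κ + 1 ∧ L.p + κ ≤ L.blk (c.2 h) + 1

/-- bits of the first player stored for the second player -/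
abbrev Lay.Bits (k : ℕ) : Type := Fin k → Fin 3 → Fin L.w → Fin L.w → Bool

/-- states of the simulation: time, configuration, time since the last cut, and mode (`none`: cut,
`some none`: first player, `some (some b)`: second player, who knows the bits `b`) -/
abbrev Lay.St (k : ℕ) (Q : Type) : Type :=
  Fin (H + 1) × Conf n k Q × Fin (L.len + 1) × Option (Option (L.Bits k))

variable {L H}

open Classical in
/-- one machine step -/
noncomputable def adv (s : L.St H k Q) (c' : Conf n k Q) (md : Option (Option (L.Bits k))) :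
    L.St H k Q :=
  if Jump s.2.1 c' ∨ L.len ≤ (s.2.2.1 : ℕ) + 1 then
    (⟨min (s.1 + 1) H, by omega⟩, c', 0, none)
  else (⟨min (s.1 + 1) H, by omega⟩, c', ⟨min (s.2.2.1 + 1) L.len, by omega⟩, md)

/-- the simulation is finished -/
def fin (s : L.St H k Q) : Prop := (M.answer s.2.1).isSome ∨ H ≤ (s.1 : ℕ)

/-- the zero data -/
def zz : L.E → Bool := fun _ => false

/-- data with the core `κ` replaced -/
def dat (F : L.Dat) (κ : Fin L.G) (x y : L.E → Bool) : L.Dat := Function.update F κ (x, y)

/-- what the first player sees -/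
def viewA (F : L.Dat) (κ : Fin L.G) (x : L.E → Bool) (c : Conf n k Q) : Fin k → Prop :=
  fun h => L.ed (dat F κ x zz) (row (c.2 h)) (col (c.2 h))

/-- what the second player sees -/
def viewB (F : L.Dat) (κ : Fin L.G) (y : L.E → Bool) (b : L.Bits k) (c : Conf n k Q) :
    Fin k → Prop :=
  fun h =>
    if row (c.2 h) / L.w ≠ L.p + κ ∧ col (c.2 h) / L.w = L.p + κ then
      b h ⟨row (c.2 h) / L.w % 3, Nat.mod_lt _ (by norm_num)⟩
        ⟨row (c.2 h) % L.w, Nat.mod_lt _ L.hw⟩ ⟨col (c.2 h) % L.w, Nat.mod_lt _ L.hw⟩ = true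
    else L.ed (dat F κ zz y) (row (c.2 h)) (col (c.2 h))

open Classical in
/-- the bits the first player tells the second one -/
noncomputable def bits (F : L.Dat) (κ : Fin L.G) (x : L.E → Bool) (c : Conf n k Q) : L.Bits k :=
  fun h m a' a => decide (∃ c2 : Cell n, L.blk c2 ≤ L.blk (c.2 h) + 1 ∧
    L.blk (c.2 h) ≤ L.blk c2 + 1 ∧ row c2 / L.w % 3 = m ∧ row c2 % L.w = a' ∧
    col c2 / L.w = L.p + κ ∧ col c2 % L.w = a ∧
    L.ed (dat F κ x zz) (row c2) (col c2))

lemma blk_eq {c : Cell n} {κ : Fin L.G} (h : col c / L.w = L.p + κ) :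
    L.blk c = row c / L.w := by
  unfold Lay.blk sr
  apply min_eq_left
  have h1 : row c / L.w ≤ col c / L.w := Nat.div_le_div_right (row_lt_col c).le
  have := κ.2
  omega

lemma bits_spec (F : L.Dat) (κ : Fin L.G) (x : L.E → Bool) (c : Conf n k Q) (h : Fin k)
    (c2 : Cell n) (h1 : L.blk c2 ≤ L.blk (c.2 h) + 1) (h2 : L.blk (c.2 h) ≤ L.blk c2 + 1)
    (h3 : col c2 / L.w = L.p + κ) :
    bits F κ x c h ⟨row c2 / L.w % 3, Nat.mod_lt _ (by norm_num)⟩
        ⟨row c2 % L.w, Nat.mod_lt _ L.hw⟩ ⟨col c2 % L.w, Nat.mod_lt _ L.hw⟩ = true ↔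
      L.ed (dat F κ x zz) (row c2) (col c2) := by
  unfold bits
  simp only [decide_eq_true_eq]
  constructor
  · rintro ⟨c3, a1, a2, a3, a4, a5, a6, a7⟩
    have e2 := blk_eq h3
    have e3 := blk_eq a5
    have e4 : row c3 / L.w = row c2 / L.w := by
      omega
    have e5 : row c3 = row c2 := by
      rw [← Nat.div_add_mod (row c3) L.w, ← Nat.div_add_mod (row c2) L.w, e4, a4]
    have e6 : col c3 = col c2 := by
      rw [← Nat.div_add_mod (col c3) L.w, ← Nat.div_add_mod (col c2) L.w, h3, a5, a6]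
    rw [← e5, ← e6]
    exact a7
  · intro h4
    exact ⟨c2, h1, h2, rfl, rfl, h3, rfl, h4⟩

open Classical in
/-- a step of the first player -/
noncomputable def sA (F : L.Dat) (κ : Fin L.G) (x : L.E → Bool) (s : L.St H k Q) : L.St H k Q :=
  if fin M s then s
  else if s.2.2.2 = none then
    (if L.near κ s.2.1 then (s.1, s.2.1, s.2.2.1, some (some (bits F κ x s.2.1)))
      else (s.1, s.2.1, s.2.2.1, some none))
  else adv s (M.step ω s.1 s.2.1 (viewA F κ x s.2.1)) (some none)

/-- a step of the second player -/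
noncomputable def sB (F : L.Dat) (κ : Fin L.G) (y : L.E → Bool) (s : L.St H k Q) : L.St H k Q :=
  match s.2.2.2 with
  | some (some b) => adv s (M.step ω s.1 s.2.1 (viewB F κ y b s.2.1)) (some (some b))
  | _ => s

/-- the states in which the second player acts -/
def inB (s : L.St H k Q) : Prop := ¬ fin M s ∧ ∃ b, s.2.2.2 = some (some b)

/-- the initial state -/
def s0 : L.St H k Q := (0, M.start ω, 0, none)

/-- invariant of the simulation -/
structure Inv (F : L.Dat) (κ : Fin L.G) (x y : L.E → Bool) (s : L.St H k Q) : Prop where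
  conf : s.2.1 = M.run ω (L.graph (dat F κ x y)) s.1
  age : (s.2.2.1 : ℕ) = ageT M ω (L.graph (dat F κ x y)) L.len s.1
  cut : s.2.2.2 = none → (s.2.2.1 : ℕ) = 0
  alice : s.2.2.2 = some none → ¬ L.near κ (M.run ω (L.graph (dat F κ x y)) (s.1 - s.2.2.1))
  bob : ∀ b, s.2.2.2 = some (some b) →
    b = bits F κ x (M.run ω (L.graph (dat F κ x y)) (s.1 - s.2.2.1))

lemma inv_s0 (F : L.Dat) (κ : Fin L.G) (x y : L.E → Bool) :
    Inv M ω F κ x y (s0 M ω : L.St H k Q) where
  conf := rfl
  age := rfl
  cut := fun _ => rfl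
  alice := fun h => by simp [s0] at h
  bob := fun b h => by simp [s0] at h

/-- the bits scanned on the tape -/
lemma scan_iff (F : L.Dat) (pos : Fin k → Cell n) (h : Fin k) :
    scan (L.graph F) pos h ↔ L.ed F (row (pos h)) (col (pos h)) :=
  L.adj_iff F (pos h).2

lemma blk_path (F : L.Dat) (t : ℕ) (h : Fin k) :
    L.blk ((M.run ω (L.graph F) t).2 h) ≤
        L.blk ((M.run ω (L.graph F) (t - ageT M ω (L.graph F) L.len t)).2 h) + 1 ∧
      L.blk ((M.run ω (L.graph F) (t - ageT M ω (L.graph F) L.len t)).2 h) ≤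
        L.blk ((M.run ω (L.graph F) t).2 h) + 1 := by
  set a := ageT M ω (L.graph F) L.len t with ha
  have h1 : a ≤ t := ageT_le M ω _ _ _
  have h2 : a < L.len := ageT_lt M ω _ L.len_pos _
  have hn := L.hn
  have hGp := L.hGp
  have h3 : (L.p + L.G) * L.w + L.p * L.w ≤ n := by
    have h4 : (L.p + L.G) * L.w ≤ (L.p + L.p) * L.w := Nat.mul_le_mul_right _ (by omega)
    have h5 : (L.p + L.p) * L.w = 2 * (L.p * L.w) := by ring
    omega
  have h4 := sr_path (n := n) (w := L.w) (top := L.p + L.G) (m := L.p * L.w) L.hw h3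
    (fun i => (M.run ω (L.graph F) i).2 h) (t - a) a ?_ h2.le
  · have h5 : t - a + a = t := by omega
    rw [h5] at h4
    exact h4
  · intro i hi
    have h5 := ageT_slow M ω (L.graph F) L.len t (t - a + i) (by omega) (by omega)
    unfold Jump at h5
    push Not at h5
    have h6 := h5 h
    unfold Adj1
    tauto

lemma dat_ne (F : L.Dat) {κ κ' : Fin L.G} (x y : L.E → Bool) (h : κ' ≠ κ) :
    dat F κ x y κ' = F κ' := Function.update_of_ne h _ _

lemma dat_eq (F : L.Dat) (κ : Fin L.G) (x y : L.E → Bool) : dat F κ x y κ = (x, y) :=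
  Function.update_self _ _ _

/-- outside the core rows the data of the second player do not matter -/
lemma ed_off (F : L.Dat) (κ : Fin L.G) (x y y' : L.E → Bool) {r c : ℕ} (h : r / L.w ≠ L.p + κ) :
    L.ed (dat F κ x y) r c ↔ L.ed (dat F κ x y') r c := by
  apply L.ed_congr
  · intro κ' hκ'
    have hne : κ' ≠ κ := by
      rintro rfl
      exact h hκ'
    rw [dat_ne F x y hne, dat_ne F x y' hne]
  · intro κ' _ _
    by_cases hne : κ' = κ
    · subst hne
      rw [dat_eq, dat_eq]
    · rw [dat_ne F x y hne, dat_ne F x y' hne]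

lemma ed_on (F : L.Dat) (κ : Fin L.G) (x x' y : L.E → Bool) {r c : ℕ}
    (h : r / L.w = L.p + κ ∨ c / L.w ≠ L.p + κ) :
    L.ed (dat F κ x y) r c ↔ L.ed (dat F κ x' y) r c := by
  apply L.ed_congr
  · intro κ' _
    by_cases hne : κ' = κ
    · subst hne
      rw [dat_eq, dat_eq]
    · rw [dat_ne F x y hne, dat_ne F x' y hne]
  · intro κ' h1 h2
    have hne : κ' ≠ κ := by
      rintro rfl
      rcases h with h | h
      · omega
      · exact h h1
    rw [dat_ne F x y hne, dat_ne F x' y hne]

variable {M ω}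

lemma viewA_eq {F : L.Dat} {κ : Fin L.G} {x y : L.E → Bool} {s : L.St H k Q}
    (hI : Inv M ω F κ x y s) (hm : s.2.2.2 = some none) :
    viewA F κ x s.2.1 = scan (L.graph (dat F κ x y)) s.2.1.2 := by
  funext h
  apply propext
  rw [scan_iff]
  unfold viewA
  apply ed_off
  intro hrow
  apply hI.alice hm
  have h1 := blk_path M ω (dat F κ x y) s.1 h
  rw [← hI.age, ← hI.conf] at h1
  have h2 : L.blk (s.2.1.2 h) = L.p + κ := by
    unfold Lay.blk sr
    rw [hrow]
    apply min_eq_left
    have := κ.2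
    omega
  refine ⟨h, ?_⟩
  omega

lemma viewB_eq {F : L.Dat} {κ : Fin L.G} {x y : L.E → Bool} {s : L.St H k Q}
    (hI : Inv M ω F κ x y s) {b : L.Bits k} (hm : s.2.2.2 = some (some b)) :
    viewB F κ y b s.2.1 = scan (L.graph (dat F κ x y)) s.2.1.2 := by
  funext h
  apply propext
  rw [scan_iff]
  unfold viewB
  split_ifs with hc
  · have h1 := blk_path M ω (dat F κ x y) s.1 h
    rw [← hI.age, ← hI.conf] at h1
    rw [hI.bob b hm, bits_spec F κ x _ h (s.2.1.2 h) h1.1 h1.2 hc.2]
    exact ed_off F κ x zz y hc.1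
  · apply ed_on
    by_contra hcon
    push Not at hcon
    exact hc hcon

open Classical in
lemma adv_inv {F : L.Dat} {κ : Fin L.G} {x y : L.E → Bool} {s : L.St H k Q}
    (hI : Inv M ω F κ x y s) (hH : (s.1 : ℕ) < H) {md : Option (L.Bits k)}
    (hm : s.2.2.2 = some md) {c' : Conf n k Q}
    (hc' : c' = M.run ω (L.graph (dat F κ x y)) (s.1 + 1)) :
    Inv M ω F κ x y (adv s c' (some md)) := by
  have ht : min ((s.1 : ℕ) + 1) H = s.1 + 1 := by omega
  have hstep : ageT M ω (L.graph (dat F κ x y)) L.len (s.1 + 1) =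
      if Jump s.2.1 c' ∨ L.len ≤ (s.2.2.1 : ℕ) + 1 then 0 else (s.2.2.1 : ℕ) + 1 := by
    rw [hI.age, hI.conf, hc']
    rfl
  unfold adv
  split_ifs with h
  · rw [if_pos h] at hstep
    refine ⟨?_, ?_, fun _ => rfl, fun h => by simp at h, fun b h => by simp at h⟩
    · simp only [ht]
      exact hc'
    · simp only [ht]
      rw [hstep]
      rfl
  · rw [if_neg h] at hstep
    push Not at h
    have h2 : min ((s.2.2.1 : ℕ) + 1) L.len = s.2.2.1 + 1 := by omega
    have h3 : (s.1 : ℕ) + 1 - (s.2.2.1 + 1) = s.1 - s.2.2.1 := by omega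
    refine ⟨?_, ?_, fun h => by simp at h, ?_, ?_⟩
    · simp only [ht]
      exact hc'
    · simp only [ht, h2]
      rw [hstep]
    · intro h4
      simp only [ht, h2, h3] at h4 ⊢
      apply hI.alice
      rw [hm]
      exact h4
    · intro b h4
      simp only [ht, h2, h3] at h4 ⊢
      apply hI.bob
      rw [hm]
      exact h4

lemma not_fin {s : L.St H k Q} (h : ¬ fin M s) : M.answer s.2.1 = none ∧ (s.1 : ℕ) < H := by
  unfold fin at h
  push Not at h
  refine ⟨?_, h.2⟩
  have := h.1
  rcases ha : M.answer s.2.1 with _ | b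
  · rfl
  · rw [ha] at this
    exact absurd rfl this

open Classical in
lemma stp_fin {F : L.Dat} {κ : Fin L.G} {x y : L.E → Bool} {s : L.St H k Q} (h : fin M s) :
    stp (inB M) (sA M ω F κ) (sB M ω F κ) x y s = s := by
  unfold stp
  rw [if_neg (fun h' => h'.1 h)]
  unfold sA
  rw [if_pos h]

open Classical in
lemma stp_cut {F : L.Dat} {κ : Fin L.G} {x y : L.E → Bool} {s : L.St H k Q} (h : ¬ fin M s)
    (hm : s.2.2.2 = none) :
    stp (inB M) (sA M ω F κ) (sB M ω F κ) x y s =
      (if L.near κ s.2.1 then (s.1, s.2.1, s.2.2.1, some (some (bits F κ x s.2.1)))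
      else (s.1, s.2.1, s.2.2.1, some none)) := by
  unfold stp
  rw [if_neg (fun h' => by obtain ⟨_, b, hb⟩ := h'; rw [hm] at hb; exact absurd hb (by simp))]
  unfold sA
  rw [if_neg h, if_pos hm]

open Classical in
lemma stp_alice {F : L.Dat} {κ : Fin L.G} {x y : L.E → Bool} {s : L.St H k Q}
    (h : ¬ fin M s) (hm : s.2.2.2 = some none) :
    stp (inB M) (sA M ω F κ) (sB M ω F κ) x y s =
      adv s (M.step ω s.1 s.2.1 (viewA F κ x s.2.1)) (some none) := by
  unfold stp
  rw [if_neg (fun h' => by obtain ⟨_, b, hb⟩ := h'; rw [hm] at hb; exact absurd hb (by simp))]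
  unfold sA
  rw [if_neg h, if_neg (by rw [hm]; simp)]

open Classical in
lemma stp_bob {F : L.Dat} {κ : Fin L.G} {x y : L.E → Bool} {s : L.St H k Q}
    (h : ¬ fin M s) {b : L.Bits k} (hm : s.2.2.2 = some (some b)) :
    stp (inB M) (sA M ω F κ) (sB M ω F κ) x y s =
      adv s (M.step ω s.1 s.2.1 (viewB F κ y b s.2.1)) (some (some b)) := by
  unfold stp
  rw [if_pos ⟨h, b, hm⟩]
  unfold sB
  rw [hm]

open Classical in
lemma inv_step {F : L.Dat} {κ : Fin L.G} {x y : L.E → Bool} {s : L.St H k Q}
    (hI : Inv M ω F κ x y s) :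
    Inv M ω F κ x y (stp (inB M) (sA M ω F κ) (sB M ω F κ) x y s) := by
  by_cases hf : fin M s
  · rw [stp_fin hf]
    exact hI
  obtain ⟨hans, hH⟩ := not_fin hf
  rcases hm : s.2.2.2 with _ | _ | b
  · rw [stp_cut hf hm]
    have h0 := hI.cut hm
    split_ifs with hnear
    · refine ⟨hI.conf, hI.age, fun h => by simp at h, fun h => by simp at h, ?_⟩
      intro b hb
      simp only [Option.some.injEq] at hb
      rw [← hb]
      simp only [h0, Nat.sub_zero]
      rw [← hI.conf]
    · refine ⟨hI.conf, hI.age, fun h => by simp at h, ?_, fun b h => by simp at h⟩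
      intro _
      simp only [h0, Nat.sub_zero]
      rw [← hI.conf]
      exact hnear
  · rw [stp_alice hf hm]
    apply adv_inv hI hH hm
    rw [viewA_eq hI hm, hI.conf, run_succ]
    rw [← hI.conf]
    exact hans
  · rw [stp_bob hf hm]
    apply adv_inv hI hH hm
    rw [viewB_eq hI hm, hI.conf, run_succ]
    rw [← hI.conf]
    exact hans

open Classical in
lemma inv_rn (F : L.Dat) (κ : Fin L.G) (x y : L.E → Bool) (m : ℕ) :
    Inv M ω F κ x y (rn (inB M) (sA M ω F κ) (sB M ω F κ) (s0 M ω : L.St H k Q) x y m) := by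
  induction m with
  | zero => exact inv_s0 M ω F κ x y
  | succ m ih =>
    rw [rn, Function.iterate_succ_apply']
    exact inv_step ih

end Sim

end Pool.Agent.UT
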