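import Mathlib
import Pool.Agent.Lib_helper21.UT.Avg

/-!
# Averaging over the random seed
-/

set_option linter.unusedSectionVars false

open MeasureTheory

namespace Pool.Agent.UT

open Finset

section Prob

variable {n k : ℕ} {Q Ω : Type} [Fintype Q] [MeasurableSpace Ω] (M : Machine n k Q Ω)
  (μ : Measure Ω) [IsProbabilityMeasure μ]

lemma meas_pair (hM : ∀ (G : SimpleGraph (Fin n)) (t : ℕ) (c : Conf n k Q),
    MeasurableSet {ω | M.run ω G t = c}) (G : SimpleGraph (Fin n)) (t t' : ℕ)
    (P : Conf n k Q → Conf n k Q → Prop) :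
    MeasurableSet {ω | P (M.run ω G t) (M.run ω G t')} := by
  have e : {ω | P (M.run ω G t) (M.run ω G t')} =
      ⋃ c ∈ {c : Conf n k Q × Conf n k Q | P c.1 c.2},
        ({ω | M.run ω G t = c.1} ∩ {ω | M.run ω G t' = c.2}) := by
    ext ω
    simp
  rw [e]
  exact MeasurableSet.biUnion (Set.to_countable _) (fun c _ => (hM G t c.1).inter (hM G t' c.2))

lemma prob_none {T : ℝ} (hT : M.ExpectedTimeLE μ T) (G : SimpleGraph (Fin n)) (m : ℕ) :
    m * μ.real {ω | M.answer (M.run ω G m) = none} ≤ T := by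
  refine le_trans ?_ (hT G m)
  rw [← nsmul_eq_mul, ← Finset.card_range m, ← Finset.sum_const, Finset.card_range]
  refine Finset.sum_le_sum fun t ht => ?_
  apply measureReal_mono
  · intro ω hω
    exact ans_none M ω G (Finset.mem_range.1 ht).le hω
  · exact measure_ne_top _ _

lemma prob_free {T : ℝ} (hT : M.ExpectedTimeLE μ T) (hd : M.DetectsTriangles μ)
    (G : SimpleGraph (Fin n)) (hG : G.CliqueFree 3) (m : ℕ) (hm : 0 < m) :
    2 / 3 - T / m ≤ μ.real {ω | M.answer (M.run ω G m) = some false} := by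
  have h1 := prob_none M μ hT G m
  have hm0' : (0 : ℝ) < m := by exact_mod_cast hm
  have h2 : μ.real {ω | M.answer (M.run ω G m) = none} ≤ T / m := by
    rw [le_div_iff₀ hm0']
    linarith
  have h3 : μ.real {ω | ∃ t b, M.answer (M.run ω G t) = some b ∧ (b = true ↔ ¬ G.CliqueFree 3)} ≤
      μ.real ({ω | M.answer (M.run ω G m) = some false} ∪
        {ω | M.answer (M.run ω G m) = none}) := by
    apply measureReal_mono
    · rintro ω ⟨t, b, hb, hb'⟩
      have hbf : b = false := by
        cases b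
        · rfl
        · exact absurd hG (hb'.1 rfl)
      subst hbf
      rcases ho : M.answer (M.run ω G m) with _ | b'
      · exact Or.inr ho
      · left
        have := ans_some M ω G hb ho
        rw [← this] at ho
        exact ho
    · exact measure_ne_top _ _
  have h4 := measureReal_union_le (μ := μ) {ω | M.answer (M.run ω G m) = some false}
        {ω | M.answer (M.run ω G m) = none}
  have h5 := hd.2 G
  linarith

lemma prob_tri (hd : M.DetectsTriangles μ) (G : SimpleGraph (Fin n)) (hG : ¬ G.CliqueFree 3)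
    (m : ℕ) : μ.real {ω | M.answer (M.run ω G m) = some false} ≤ 1 / 3 := by
  have h1 : μ.real {ω | ∃ t b, M.answer (M.run ω G t) = some b ∧ (b = true ↔ ¬ G.CliqueFree 3)} ≤
      μ.real ({ω | M.answer (M.run ω G m) = some false}ᶜ) := by
    apply measureReal_mono
    · rintro ω ⟨t, b, hb, hb'⟩ hω
      have hbt : b = true := hb'.2 hG
      subst hbt
      have := ans_some M ω G hb hω
      exact absurd this (by decide)
    · exact measure_ne_top _ _
  rw [measureReal_compl (meas_pair M hd.1 G m m (fun c _ => M.answer c = some false)),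
    probReal_univ] at h1
  have h5 := hd.2 G
  linarith

lemma int_sum {I : Type} (s : Finset I) (A : I → Set Ω) (hA : ∀ i, MeasurableSet (A i)) :
    Integrable (fun ω => ∑ i ∈ s, (A i).indicator (fun _ => (1 : ℝ)) ω) μ ∧
      ∫ ω, ∑ i ∈ s, (A i).indicator (fun _ => (1 : ℝ)) ω ∂μ = ∑ i ∈ s, μ.real (A i) := by
  have hint : ∀ i, Integrable ((A i).indicator (fun _ => (1 : ℝ))) μ := by
    intro i
    exact (integrable_const 1).indicator (hA i)
  refine ⟨integrable_finsetSum _ fun i _ => hint i, ?_⟩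
  rw [integral_finsetSum _ (fun i _ => hint i)]
  refine Finset.sum_congr rfl fun i _ => ?_
  rw [integral_indicator_const _ (hA i)]
  simp

end Prob

section Main

variable {n k : ℕ} {Q Ω : Type} [Fintype Q] [MeasurableSpace Ω] (M : Machine n k Q Ω)
  (μ : Measure Ω) [IsProbabilityMeasure μ]

/-- index of a random graph -/
abbrev Lay.Z (L : Lay n) : Type := Fin L.G → L.Q3

/-- index of an instance -/
abbrev Lay.I (L : Lay n) : Type := L.Z × Fin L.G × L.E × L.Q3

instance fintypeZ (L : Lay n) : Fintype L.Z := inferInstance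

instance fintypeQ3 (L : Lay n) : Fintype L.Q3 := inferInstance

instance fintypeI (L : Lay n) : Fintype L.I :=
  @instFintypeProd _ _ (fintypeZ L) (@instFintypeProd _ _ inferInstance
    (@instFintypeProd _ _ inferInstance (fintypeQ3 L)))

/-- the machine says no triangle on the instance -/
def setNo (L : Lay n) (H : ℕ) (b : Bool) (i : L.I) : Set Ω :=
  {ω | M.answer (M.run ω (L.graph (L.inst i.1 i.2.1 i.2.2.2 i.2.2.1 b)) H) = some false}

def setU (L : Lay n) (z : L.Z) (t : ℕ) : Set Ω :=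
  {ω | M.answer (M.run ω (L.graph (L.base z)) t) = none}

def setJ (L : Lay n) (z : L.Z) (t : ℕ) : Set Ω :=
  {ω | Jump (M.run ω (L.graph (L.base z)) t) (M.run ω (L.graph (L.base z)) (t + 1))}

lemma sum_pNo (L : Lay n) (H : ℕ) (b : Bool) (ω : Ω) :
    (∑ z : Fin L.G → L.Q3, ∑ κ : Fin L.G, ∑ e : L.E, ∑ q : L.Q3,
      pNo M ω L H (L.inst z κ q e b)) =
      ∑ i : L.I, (setNo M L H b i).indicator (fun _ => (1 : ℝ)) ω := by
  symm
  rw [Fintype.sum_prod_type]
  refine Finset.sum_congr rfl fun z _ => ?_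
  rw [Fintype.sum_prod_type]
  refine Finset.sum_congr rfl fun κ _ => ?_
  rw [Fintype.sum_prod_type]
  refine Finset.sum_congr rfl fun e _ => Finset.sum_congr rfl fun q _ => ?_
  unfold pNo setNo
  rw [Set.indicator_apply]
  rfl

lemma sum_cuts (L : Lay n) (H : ℕ) (ω : Ω) :
    (∑ z : Fin L.G → L.Q3, (cuts M ω L H (L.base z) : ℝ)) ≤
      (∑ z : L.Z, ∑ t ∈ Finset.range H, (setU M L z t).indicator (fun _ => (1 : ℝ)) ω) / L.len +
      (∑ z : L.Z, ∑ t ∈ Finset.range H, (setJ M L z t).indicator (fun _ => (1 : ℝ)) ω) +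
      Fintype.card L.Z := by
  classical
  have hlen : (0 : ℝ) < L.len := by exact_mod_cast L.len_pos
  have h2 : ∀ z : L.Z, (cuts M ω L H (L.base z) : ℝ) ≤
      (∑ t ∈ Finset.range H, (setU M L z t).indicator (fun _ => (1 : ℝ)) ω) / L.len +
        (∑ t ∈ Finset.range H, (setJ M L z t).indicator (fun _ => (1 : ℝ)) ω) + 1 := by
    intro z
    have h3 := cuts_le (M := M) (ω := ω) (L := L) (H := H) (L.base z)
    have h5 : (((Finset.range H).filter fun t =>
        M.answer (M.run ω (L.graph (L.base z)) t) = none).card : ℝ) =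
        ∑ t ∈ Finset.range H, (setU M L z t).indicator (fun _ => (1 : ℝ)) ω := by
      rw [Finset.card_filter]
      push_cast
      refine Finset.sum_congr rfl fun t _ => ?_
      rw [Set.indicator_apply]
      exact if_congr Iff.rfl rfl rfl
    have h6 : (((Finset.range H).filter fun t =>
        Jump (M.run ω (L.graph (L.base z)) t)
          (M.run ω (L.graph (L.base z)) (t + 1))).card : ℝ) =
        ∑ t ∈ Finset.range H, (setJ M L z t).indicator (fun _ => (1 : ℝ)) ω := by
      rw [Finset.card_filter]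
      push_cast
      refine Finset.sum_congr rfl fun t _ => ?_
      rw [Set.indicator_apply]
      exact if_congr Iff.rfl rfl rfl
    have h4 : (L.len : ℝ) * (cuts M ω L H (L.base z) : ℝ) ≤
        (((Finset.range H).filter fun t =>
          M.answer (M.run ω (L.graph (L.base z)) t) = none).card : ℝ) +
        L.len * (((Finset.range H).filter fun t =>
        Jump (M.run ω (L.graph (L.base z)) t)
          (M.run ω (L.graph (L.base z)) (t + 1))).card : ℝ) + L.len := by
      exact_mod_cast h3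
    rw [h5, h6] at h4
    generalize (∑ t ∈ Finset.range H, (setU M L z t).indicator (fun _ => (1 : ℝ)) ω) = a at *
    generalize (∑ t ∈ Finset.range H, (setJ M L z t).indicator (fun _ => (1 : ℝ)) ω) = b at *
    generalize (cuts M ω L H (L.base z) : ℝ) = c at *
    rw [← sub_nonneg]
    have h7 : a / L.len + b + 1 - c = (a + L.len * b + L.len - L.len * c) / L.len := by
      field_simp
    rw [h7]
    apply div_nonneg _ hlen.le
    linarith
  refine (Finset.sum_le_sum fun z _ => h2 z).trans (le_of_eq ?_)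
  rw [Finset.sum_add_distrib, Finset.sum_add_distrib, ← Finset.sum_div, Finset.sum_const,
    Finset.card_univ, nsmul_eq_mul, mul_one]

lemma pointwise (L : Lay n) (H R : ℕ) (hR : 0 < R) (r0 : ℝ) (hr0 : 0 ≤ r0) (ω : Ω) :
    9 / 16 * ((∑ i : L.I, (setNo M L H false i).indicator (fun _ => (1 : ℝ)) ω) -
      6 * k * Fintype.card L.E * 8 ^ Fintype.card L.E / R *
      ((∑ z : L.Z, ∑ t ∈ Finset.range H, (setU M L z t).indicator (fun _ => (1 : ℝ)) ω) / L.len +
      (∑ z : L.Z, ∑ t ∈ Finset.range H, (setJ M L z t).indicator (fun _ => (1 : ℝ)) ω) +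
      Fintype.card L.Z) -
      Fintype.card L.Z * L.G * (8 * r0 * 8 ^ Fintype.card L.E +
        (Fintype.card (L.St H k Q × L.St H k Q) : ℝ) ^ R *
          (8 * (Fintype.card L.E * 8 ^ Fintype.card L.E * Real.exp (-r0 / 98))))) ≤
      ∑ i : L.I, (setNo M L H true i).indicator (fun _ => (1 : ℝ)) ω := by
  have h := seed_ineq (M := M) (ω := ω) (L := L) (H := H) R hR r0 hr0
  rw [sum_pNo, sum_pNo] at h
  refine le_trans ?_ h
  have e1 := sum_cuts M L H ω
  have hR' : (0 : ℝ) < R := by exact_mod_cast hR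
  have hc1' : (0 : ℝ) ≤ 6 * k * Fintype.card L.E * 8 ^ Fintype.card L.E / R := by positivity
  have e2 := mul_le_mul_of_nonneg_left e1 hc1'
  refine mul_le_mul_of_nonneg_left ?_ (by norm_num)
  linarith

lemma integrated (hM : ∀ (G : SimpleGraph (Fin n)) (t : ℕ) (c : Conf n k Q),
    MeasurableSet {ω | M.run ω G t = c}) (L : Lay n) (H : ℕ) (c1 c2 : ℝ)
    (hpt : ∀ ω, 9 / 16 * ((∑ i : L.I, (setNo M L H false i).indicator (fun _ => (1 : ℝ)) ω) -
      c1 * ((∑ z : L.Z, ∑ t ∈ Finset.range H,
        (setU M L z t).indicator (fun _ => (1 : ℝ)) ω) / L.len +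
      (∑ z : L.Z, ∑ t ∈ Finset.range H, (setJ M L z t).indicator (fun _ => (1 : ℝ)) ω) +
      Fintype.card L.Z) - c2) ≤
      ∑ i : L.I, (setNo M L H true i).indicator (fun _ => (1 : ℝ)) ω) :
    9 / 16 * ((∑ i : L.I, μ.real (setNo M L H false i)) -
      c1 * ((∑ z : L.Z, ∑ t ∈ Finset.range H, μ.real (setU M L z t)) / L.len +
      (∑ z : L.Z, ∑ t ∈ Finset.range H, μ.real (setJ M L z t)) +
      Fintype.card L.Z) - c2) ≤ ∑ i : L.I, μ.real (setNo M L H true i) := by
  have m0 : ∀ b i, MeasurableSet (setNo M L H b i) := fun b i =>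
    meas_pair M hM _ H H (fun c _ => M.answer c = some false)
  have mU : ∀ z t, MeasurableSet (setU M L z t) := fun z t =>
    meas_pair M hM _ t t (fun c _ => M.answer c = none)
  have mJ : ∀ z t, MeasurableSet (setJ M L z t) := fun z t =>
    meas_pair M hM _ t (t + 1) (fun c c' => Jump c c')
  obtain ⟨i0, v0⟩ := int_sum μ (Finset.univ : Finset L.I) (setNo M L H false) (m0 false)
  obtain ⟨i1, v1⟩ := int_sum μ (Finset.univ : Finset L.I) (setNo M L H true) (m0 true)
  have hU := fun z => int_sum μ (Finset.range H) (setU M L z) (mU z)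
  have hJ := fun z => int_sum μ (Finset.range H) (setJ M L z) (mJ z)
  have iU : Integrable (fun ω => ∑ z : L.Z, ∑ t ∈ Finset.range H,
      (setU M L z t).indicator (fun _ => (1 : ℝ)) ω) μ :=
    integrable_finsetSum _ fun z _ => (hU z).1
  have iJ : Integrable (fun ω => ∑ z : L.Z, ∑ t ∈ Finset.range H,
      (setJ M L z t).indicator (fun _ => (1 : ℝ)) ω) μ :=
    integrable_finsetSum _ fun z _ => (hJ z).1
  have vU : ∫ ω, ∑ z : L.Z, ∑ t ∈ Finset.range H,
      (setU M L z t).indicator (fun _ => (1 : ℝ)) ω ∂μ =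
      ∑ z : L.Z, ∑ t ∈ Finset.range H, μ.real (setU M L z t) := by
    rw [integral_finsetSum _ (fun z _ => (hU z).1)]
    exact Finset.sum_congr rfl fun z _ => (hU z).2
  have vJ : ∫ ω, ∑ z : L.Z, ∑ t ∈ Finset.range H,
      (setJ M L z t).indicator (fun _ => (1 : ℝ)) ω ∂μ =
      ∑ z : L.Z, ∑ t ∈ Finset.range H, μ.real (setJ M L z t) := by
    rw [integral_finsetSum _ (fun z _ => (hJ z).1)]
    exact Finset.sum_congr rfl fun z _ => (hJ z).2
  rw [← v0, ← v1, ← vU, ← vJ]
  set f0 : Ω → ℝ := fun ω => ∑ i : L.I, (setNo M L H false i).indicator (fun _ => (1 : ℝ)) ω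
  set f1 : Ω → ℝ := fun ω => ∑ i : L.I, (setNo M L H true i).indicator (fun _ => (1 : ℝ)) ω
  set fU : Ω → ℝ := fun ω => ∑ z : L.Z, ∑ t ∈ Finset.range H,
      (setU M L z t).indicator (fun _ => (1 : ℝ)) ω
  set fJ : Ω → ℝ := fun ω => ∑ z : L.Z, ∑ t ∈ Finset.range H,
      (setJ M L z t).indicator (fun _ => (1 : ℝ)) ω
  set cZ : ℝ := (Fintype.card L.Z : ℝ)
  have a1 : Integrable (fun ω => fU ω / L.len + fJ ω + cZ) μ :=
    ((iU.div_const _).add iJ).add (integrable_const _)
  have a2 : Integrable (fun ω => c1 * (fU ω / L.len + fJ ω + cZ)) μ := a1.const_mul c1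
  have a3 : Integrable (fun ω => f0 ω - c1 * (fU ω / L.len + fJ ω + cZ)) μ := i0.sub a2
  have a4 : Integrable (fun ω => f0 ω - c1 * (fU ω / L.len + fJ ω + cZ) - c2) μ :=
    a3.sub (integrable_const _)
  have a5 : Integrable (fun ω => 9 / 16 * (f0 ω - c1 * (fU ω / L.len + fJ ω + cZ) - c2)) μ :=
    a4.const_mul _
  have hI := integral_mono a5 i1 hpt
  have b1 : ∫ ω, (fU ω / L.len + fJ ω + cZ) ∂μ = (∫ ω, fU ω ∂μ) / L.len + ∫ ω, fJ ω ∂μ + cZ := by
    have b0 : Integrable (fun ω => fU ω / L.len + fJ ω) μ := (iU.div_const _).add iJ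
    rw [integral_add b0 (integrable_const _), integral_add (iU.div_const _) iJ, integral_div]
    simp
  have b2 : ∫ ω, 9 / 16 * (f0 ω - c1 * (fU ω / L.len + fJ ω + cZ) - c2) ∂μ =
      9 / 16 * (∫ ω, f0 ω ∂μ - c1 * ((∫ ω, fU ω ∂μ) / L.len + ∫ ω, fJ ω ∂μ + cZ) - c2) := by
    rw [integral_const_mul, integral_sub a3 (integrable_const _), integral_sub i0 a2,
      integral_const_mul, b1]
    simp
  rw [b2] at hI
  exact hI

lemma card_I (L : Lay n) : (Fintype.card L.I : ℝ) =
    Fintype.card L.Z * (L.G * (Fintype.card L.E * 8 ^ Fintype.card L.E)) := by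
  have h1 : Fintype.card L.I = Fintype.card L.Z * (Fintype.card (Fin L.G) *
      (Fintype.card L.E * Fintype.card L.Q3)) := by
    rw [← Fintype.card_prod, ← Fintype.card_prod, ← Fintype.card_prod]
  rw [h1, card_Q3, Fintype.card_fin]
  push_cast
  ring

lemma msk_disj {E : Type} (D u v : E → Bool) (e : E) (h : msk D u e = true) :
    msk (ng D) v e = false := by
  unfold msk at h
  unfold msk ng
  cases hD : D e
  · rw [hD] at h
    simp at h
  · simp

lemma inst_free (L : Lay n) (i : L.I) :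
    (L.graph (L.inst i.1 i.2.1 i.2.2.2 i.2.2.1 false)).CliqueFree 3 := by
  apply Lay.cliqueFree
  intro κ e
  unfold Lay.inst
  by_cases hκ : κ = i.2.1
  · subst hκ
    rw [dat_eq]
    by_cases he : e = i.2.2.1
    · subst he
      simp
    · simp only [ne_eq, he, not_false_eq_true, Function.update_of_ne]
      exact msk_disj _ _ _ e
  · rw [dat_ne _ _ _ hκ]
    exact msk_disj _ _ _ e

lemma inst_tri (L : Lay n) (i : L.I) :
    ¬ (L.graph (L.inst i.1 i.2.1 i.2.2.2 i.2.2.1 true)).CliqueFree 3 := by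
  apply Lay.not_cliqueFree _ i.2.1 i.2.2.1
  · unfold Lay.inst
    rw [dat_eq]
    simp
  · unfold Lay.inst
    rw [dat_eq]
    simp

theorem main_ineq {T J : ℝ} (hd : M.DetectsTriangles μ) (hT : M.ExpectedTimeLE μ T)
    (hJ : M.ExpectedJumpsLE μ J) (L : Lay n) (H R : ℕ) (hH : 0 < H) (hR : 0 < R) (hG : 0 < L.G)
    (hE : 0 < Fintype.card L.E) (r0 : ℝ) (hr0 : 0 ≤ r0) :
    9 / 16 * (2 / 3 - T / H - 6 * k / (R * L.G) * (T / L.len + J + 1) -
      8 * r0 / Fintype.card L.E -
      8 * (Fintype.card (L.St H k Q × L.St H k Q) : ℝ) ^ R * Real.exp (-r0 / 98)) ≤ 1 / 3 := by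
  have h1 := integrated M μ hd.1 L H _ _ (pointwise M L H R hR r0 hr0)
  have hR' : (0 : ℝ) < R := by exact_mod_cast hR
  have hG' : (0 : ℝ) < L.G := by exact_mod_cast hG
  have hE' : (0 : ℝ) < Fintype.card L.E := by exact_mod_cast hE
  have hlen : (0 : ℝ) < L.len := by exact_mod_cast L.len_pos
  have hZ : (0 : ℝ) < Fintype.card L.Z := by
    have : Nonempty L.Z := ⟨fun _ => (fun _ => false, fun _ => false, fun _ => false)⟩
    exact_mod_cast Fintype.card_pos
  have s0 : Fintype.card L.I * (2 / 3 - T / H) ≤ ∑ i : L.I, μ.real (setNo M L H false i) := by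
    rw [← nsmul_eq_mul, ← Finset.card_univ, ← Finset.sum_const]
    exact Finset.sum_le_sum fun i _ => prob_free M μ hT hd _ (inst_free L i) H hH
  have s1 : ∑ i : L.I, μ.real (setNo M L H true i) ≤ Fintype.card L.I * (1 / 3) := by
    rw [← nsmul_eq_mul, ← Finset.card_univ, ← Finset.sum_const]
    exact Finset.sum_le_sum fun i _ => prob_tri M μ hd _ (inst_tri L i) H
  have sU : ∑ z : L.Z, ∑ t ∈ Finset.range H, μ.real (setU M L z t) ≤ Fintype.card L.Z * T := by
    rw [← nsmul_eq_mul, ← Finset.card_univ, ← Finset.sum_const]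
    exact Finset.sum_le_sum fun z _ => hT _ H
  have sJ : ∑ z : L.Z, ∑ t ∈ Finset.range H, μ.real (setJ M L z t) ≤ Fintype.card L.Z * J := by
    rw [← nsmul_eq_mul, ← Finset.card_univ, ← Finset.sum_const]
    exact Finset.sum_le_sum fun z _ => hJ _ H
  generalize (∑ i : L.I, μ.real (setNo M L H false i)) = S0 at *
  generalize (∑ i : L.I, μ.real (setNo M L H true i)) = S1 at *
  generalize (∑ z : L.Z, ∑ t ∈ Finset.range H, μ.real (setU M L z t)) = SU at *
  generalize (∑ z : L.Z, ∑ t ∈ Finset.range H, μ.real (setJ M L z t)) = SJ at *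
  rw [card_I] at s0 s1
  generalize (Fintype.card (L.St H k Q × L.St H k Q) : ℝ) ^ R = X at *
  generalize Real.exp (-r0 / 98) = Y at *
  generalize (Fintype.card L.Z : ℝ) = z at *
  have hP : (0 : ℝ) < 8 ^ Fintype.card L.E := by positivity
  generalize (8 : ℝ) ^ Fintype.card L.E = P at *
  generalize (Fintype.card L.E : ℝ) = N at *
  generalize (L.len : ℝ) = l at *
  generalize (L.G : ℝ) = g at *
  have hc1 : 0 ≤ 6 * (k : ℝ) * N * P / R := by positivity
  have hK : 0 < z * (g * (N * P)) := by positivity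
  have h2 : SU / l + SJ + z ≤ z * (T / l + J + 1) := by
    have : SU / l ≤ z * T / l := div_le_div_of_nonneg_right sU hlen.le
    have h3 : z * T / l = z * (T / l) := by ring
    rw [h3] at this
    linarith
  have h3 := mul_le_mul_of_nonneg_left h2 hc1
  have e1 : 6 * (k : ℝ) * N * P / R * (z * (T / l + J + 1)) =
      z * (g * (N * P)) * (6 * k / (R * g) * (T / l + J + 1)) := by
    field_simp
  have e2 : z * g * (8 * r0 * P + X * (8 * (N * P * Y))) =
      z * (g * (N * P)) * (8 * r0 / N + 8 * X * Y) := by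
    field_simp
  rw [e1] at h3
  rw [e2] at h1
  have h4 : z * (g * (N * P)) * (9 / 16 * (2 / 3 - T / H - 6 * k / (R * g) * (T / l + J + 1) -
      8 * r0 / N - 8 * X * Y)) ≤ z * (g * (N * P)) * (1 / 3) := by
    linarith
  exact le_of_mul_le_mul_left h4 hK

end Main

end Pool.Agent.UT
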