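import Mathlib
import Pool.Agent.Lib_helper21.UT.Rand

/-!
# The machine has to read the tape
-/

set_option linter.unusedSectionVars false

open MeasureTheory

namespace Pool.Agent.UT

open Finset

lemma cliqueFree_of_sorted {n : ℕ} (G : SimpleGraph (Fin n))
    (key : ∀ a b c : Fin n, a < b → b < c → G.Adj a b → G.Adj a c → G.Adj b c → False) :
    G.CliqueFree 3 := by
  intro t ht
  rw [SimpleGraph.is3Clique_iff] at ht
  obtain ⟨a, b, c, hab, hac, hbc, _⟩ := ht
  rcases lt_trichotomy a b with h1 | h1 | h1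
  · rcases lt_trichotomy b c with h2 | h2 | h2
    · exact key a b c h1 h2 hab hac hbc
    · exact hbc.ne h2
    · rcases lt_trichotomy a c with h3 | h3 | h3
      · exact key a c b h3 h2 hac hab hbc.symm
      · exact hac.ne h3
      · exact key c a b h3 h1 hac.symm hbc.symm hab
  · exact hab.ne h1
  · rcases lt_trichotomy a c with h2 | h2 | h2
    · exact key b a c h1 h2 hab.symm hbc hac
    · exact hac.ne h2
    · rcases lt_trichotomy b c with h3 | h3 | h3
      · exact key b c a h3 h2 hbc hab.symm hac.symm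
      · exact hbc.ne h3
      · exact key c b a h3 h1 hbc.symm hac.symm hab.symm

/-- the graph with the edges `u < v`, `P u v` -/
def gph (n : ℕ) (P : ℕ → ℕ → Prop) : SimpleGraph (Fin n) where
  Adj u v := ((u : ℕ) < v ∧ P u v) ∨ ((v : ℕ) < u ∧ P v u)
  symm := ⟨fun _ _ h => h.symm⟩
  loopless := ⟨fun u h => by
    rcases h with h | h <;> exact absurd h.1 (lt_irrefl _)⟩

lemma gph_adj {n : ℕ} {P : ℕ → ℕ → Prop} {u v : Fin n} (h : u < v) :
    (gph n P).Adj u v ↔ P u v := by
  constructor
  · rintro (h1 | h1)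
    · exact h1.2
    · exact absurd h1.1 (by rw [Fin.lt_def] at h; omega)
  · intro h1
    exact Or.inl ⟨h, h1⟩

/-- a complete bipartite graph -/
def gB (n h : ℕ) : SimpleGraph (Fin n) := gph n (fun u v => u < h ∧ h ≤ v)

/-- with one more edge -/
def gC (n h a b : ℕ) : SimpleGraph (Fin n) :=
  gph n (fun u v => (u < h ∧ h ≤ v) ∨ (u = a ∧ v = b))

lemma gB_adj {n h : ℕ} {u v : Fin n} (huv : u < v) :
    (gB n h).Adj u v ↔ ((u : ℕ) < h ∧ h ≤ (v : ℕ)) := gph_adj huv

lemma gC_adj {n h a b : ℕ} {u v : Fin n} (huv : u < v) :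
    (gC n h a b).Adj u v ↔ (((u : ℕ) < h ∧ h ≤ (v : ℕ)) ∨ ((u : ℕ) = a ∧ (v : ℕ) = b)) :=
  gph_adj huv

lemma gB_free (n h : ℕ) : (gB n h).CliqueFree 3 := by
  apply cliqueFree_of_sorted
  intro a b c h1 h2 hab _ hbc
  rw [gB, gph_adj h1] at hab
  rw [gB, gph_adj h2] at hbc
  omega

lemma gC_tri (n h a b : ℕ) (hab : a < b) (hb : b < h) (hn : h < n) :
    ¬ (gC n h a b).CliqueFree 3 := by
  intro hfree
  let u : Fin n := ⟨a, by omega⟩
  let v : Fin n := ⟨b, by omega⟩
  let z : Fin n := ⟨h, hn⟩
  have huv : (gC n h a b).Adj u v := (gph_adj (by rw [Fin.lt_def]; exact hab)).2 (Or.inr ⟨rfl, rfl⟩)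
  have huz : (gC n h a b).Adj u z :=
    (gph_adj (by rw [Fin.lt_def]; exact hab.trans hb)).2 (Or.inl ⟨hab.trans hb, le_rfl⟩)
  have hvz : (gC n h a b).Adj v z :=
    (gph_adj (by rw [Fin.lt_def]; exact hb)).2 (Or.inl ⟨hb, le_rfl⟩)
  exact hfree {u, v, z} (SimpleGraph.is3Clique_iff.2 ⟨u, v, z, huv, huz, hvz, rfl⟩)

section

variable {n k : ℕ} {Q Ω : Type} (M : Machine n k Q Ω)

lemma run_same (ω : Ω) (h : ℕ) (c : Cell n) (m : ℕ)
    (hno : ∀ t < m, M.answer (M.run ω (gB n h) t) = none →
      ∀ i, (M.run ω (gB n h) t).2 i ≠ c) :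
    M.run ω (gC n h (row c) (col c)) m = M.run ω (gB n h) m := by
  induction m with
  | zero => rfl
  | succ m ih =>
    have h1 := ih (fun t ht => hno t (by omega))
    show (if (M.answer (M.run ω (gC n h (row c) (col c)) m)).isSome then
      M.run ω (gC n h (row c) (col c)) m else _) =
      (if (M.answer (M.run ω (gB n h) m)).isSome then M.run ω (gB n h) m else _)
    rw [h1]
    split_ifs with h2
    · rfl
    · have h3 : M.answer (M.run ω (gB n h) m) = none := by
        rcases ho : M.answer (M.run ω (gB n h) m) with _ | b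
        · rfl
        · rw [ho] at h2
          exact absurd rfl h2
      have h4 := hno m (by omega) h3
      have h5 : scan (gC n h (row c) (col c)) (M.run ω (gB n h) m).2 =
          scan (gB n h) (M.run ω (gB n h) m).2 := by
        funext i
        apply propext
        unfold scan
        rw [gC_adj ((M.run ω (gB n h) m).2 i).2, gB_adj ((M.run ω (gB n h) m).2 i).2]
        constructor
        · rintro (h6 | ⟨h6, h7⟩)
          · exact h6
          · exact absurd (cell_ext h6 h7) (h4 i)
        · exact Or.inl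
      rw [h5]

variable [Fintype Q] [MeasurableSpace Ω] (μ : Measure Ω) [IsProbabilityMeasure μ]

/-- every cell of the first part is read with probability at least `1 / 3 - T / m` -/
lemma read_cell {T : ℝ} (hT : M.ExpectedTimeLE μ T) (hd : M.DetectsTriangles μ) (h : ℕ)
    (hn : h < n) (c : Cell n) (hc : col c < h) (m : ℕ) (hm : 0 < m) :
    1 / 3 - T / m ≤ ∑ t ∈ Finset.range m, ∑ i : Fin k,
      μ.real ({ω | M.answer (M.run ω (gB n h) t) = none} ∩
        {ω | (M.run ω (gB n h) t).2 i = c}) := by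
  have h1 := prob_free M μ hT hd (gB n h) (gB_free n h) m hm
  have h2 := prob_tri M μ hd (gC n h (row c) (col c))
    (gC_tri n h _ _ (row_lt_col c) hc hn) m
  have h3 : μ.real {ω | M.answer (M.run ω (gB n h) m) = some false} ≤
      μ.real ({ω | M.answer (M.run ω (gC n h (row c) (col c)) m) = some false} ∪
        ⋃ t ∈ Finset.range m, ⋃ i ∈ (Finset.univ : Finset (Fin k)),
          ({ω | M.answer (M.run ω (gB n h) t) = none} ∩ {ω | (M.run ω (gB n h) t).2 i = c})) := by
    apply measureReal_mono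
    · intro ω hω
      by_cases hno : ∀ t < m, M.answer (M.run ω (gB n h) t) = none →
        ∀ i, (M.run ω (gB n h) t).2 i ≠ c
      · left
        rw [Set.mem_ofPred_eq, run_same M ω h c m hno]
        exact hω
      · right
        push Not at hno
        obtain ⟨t, ht, hans, i, hi⟩ := hno
        simp only [Set.mem_iUnion]
        exact ⟨t, Finset.mem_range.2 ht, i, Finset.mem_univ _, hans, hi⟩
    · exact measure_ne_top _ _
  have h4 := measureReal_union_le (μ := μ)
    {ω | M.answer (M.run ω (gC n h (row c) (col c)) m) = some false}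
    (⋃ t ∈ Finset.range m, ⋃ i ∈ (Finset.univ : Finset (Fin k)),
          ({ω | M.answer (M.run ω (gB n h) t) = none} ∩ {ω | (M.run ω (gB n h) t).2 i = c}))
  have h5 : μ.real (⋃ t ∈ Finset.range m, ⋃ i ∈ (Finset.univ : Finset (Fin k)),
          ({ω | M.answer (M.run ω (gB n h) t) = none} ∩ {ω | (M.run ω (gB n h) t).2 i = c})) ≤
      ∑ t ∈ Finset.range m, ∑ i : Fin k, μ.real ({ω | M.answer (M.run ω (gB n h) t) = none} ∩
        {ω | (M.run ω (gB n h) t).2 i = c}) := by
    refine (measureReal_biUnion_finset_le _ _).trans ?_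
    exact Finset.sum_le_sum fun t _ => measureReal_biUnion_finset_le _ _
  linarith

/-- The machine has to read a constant fraction of the tape. -/
theorem read_bound {T : ℝ} (hT : M.ExpectedTimeLE μ T) (hd : M.DetectsTriangles μ) (q : ℕ)
    (hn : 2 * q < n) (m : ℕ) (hm : 0 < m) : (1 / 3 - T / m) * (q : ℝ) ^ 2 ≤ k * T := by
  classical
  let f : Fin q × Fin q → Cell n := fun p =>
    mkc p.1 (q + p.2) (by have := p.1.2; omega) (by have := p.2.2; omega)
  have hf : Function.Injective f := by
    intro p p' h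
    have h1 : row (f p) = row (f p') := by rw [h]
    have h2 : col (f p) = col (f p') := by rw [h]
    have h3 : (p.1 : ℕ) = p'.1 := h1
    have h4 : q + (p.2 : ℕ) = q + p'.2 := h2
    exact Prod.ext (Fin.ext h3) (Fin.ext (by omega))
  have h1 : ∀ p : Fin q × Fin q, 1 / 3 - T / m ≤ ∑ t ∈ Finset.range m, ∑ i : Fin k,
      μ.real ({ω | M.answer (M.run ω (gB n (2 * q)) t) = none} ∩
        {ω | (M.run ω (gB n (2 * q)) t).2 i = f p}) := by
    intro p
    refine read_cell M μ hT hd (2 * q) hn (f p) ?_ m hm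
    show q + (p.2 : ℕ) < 2 * q
    have := p.2.2
    omega
  have h2 := Finset.sum_le_sum fun p (_ : p ∈ (Finset.univ : Finset (Fin q × Fin q))) => h1 p
  rw [Finset.sum_const, Finset.card_univ, Fintype.card_prod, Fintype.card_fin, nsmul_eq_mul] at h2
  have h3 : ∑ p : Fin q × Fin q, ∑ t ∈ Finset.range m, ∑ i : Fin k,
      μ.real ({ω | M.answer (M.run ω (gB n (2 * q)) t) = none} ∩
        {ω | (M.run ω (gB n (2 * q)) t).2 i = f p}) ≤
      ∑ t ∈ Finset.range m, ∑ i : Fin k,
        μ.real {ω | M.answer (M.run ω (gB n (2 * q)) t) = none} := by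
    rw [Finset.sum_comm]
    refine Finset.sum_le_sum fun t _ => ?_
    rw [Finset.sum_comm]
    refine Finset.sum_le_sum fun i _ => ?_
    rw [← measureReal_biUnion_finset]
    · apply measureReal_mono
      · intro ω hω
        simp only [Set.mem_iUnion] at hω
        obtain ⟨p, _, hp, _⟩ := hω
        exact hp
      · exact measure_ne_top _ _
    · intro p _ p' _ hpp
      rw [Function.onFun, Set.disjoint_left]
      rintro ω ⟨_, h4⟩ ⟨_, h5⟩
      apply hpp
      apply hf
      rw [← h4, ← h5]
    · intro p _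
      exact (meas_pair M hd.1 _ t t (fun c _ => M.answer c = none)).inter
        (meas_pair M hd.1 _ t t (fun c _ => c.2 i = f p))
  have h4 : ∑ t ∈ Finset.range m, ∑ i : Fin k,
        μ.real {ω | M.answer (M.run ω (gB n (2 * q)) t) = none} ≤ k * T := by
    have h5 : ∀ t, ∑ i : Fin k, μ.real {ω | M.answer (M.run ω (gB n (2 * q)) t) = none} =
        k * μ.real {ω | M.answer (M.run ω (gB n (2 * q)) t) = none} := by
      intro t
      rw [Finset.sum_const, Finset.card_univ, Fintype.card_fin, nsmul_eq_mul]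
    rw [Finset.sum_congr rfl fun t _ => h5 t, ← Finset.mul_sum]
    exact mul_le_mul_of_nonneg_left (hT _ m) (Nat.cast_nonneg _)
  have h5 := h2.trans (h3.trans h4)
  push_cast at h5
  calc (1 / 3 - T / m) * (q : ℝ) ^ 2 = (q : ℝ) * q * (1 / 3 - T / m) := by ring
    _ ≤ k * T := h5

end

end Pool.Agent.UT
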