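import Mathlib
import Pool.Agent.Lib_helper21.UT.Read

/-!
# Numerical estimates
-/

set_option linter.unusedSectionVars false

open MeasureTheory

namespace Pool.Agent.UT

/-- the loss of Behrend's construction -/
noncomputable def EE (n : ℕ) : ℝ := Real.exp (4 * √(Real.log n))

lemma EE_pos (n : ℕ) : 0 < EE n := Real.exp_pos _

lemma one_le_EE (n : ℕ) : 1 ≤ EE n := by
  unfold EE
  rw [← Real.exp_zero]
  apply Real.exp_le_exp.2
  positivity

lemma roth_ge {m n : ℕ} (hm : 1 ≤ m) (hmn : m ≤ n) : (m : ℝ) / EE n ≤ rothNumberNat m := by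
  refine le_trans ?_ (Behrend.roth_lower_bound (N := m))
  rw [div_eq_mul_inv]
  apply mul_le_mul_of_nonneg_left _ (Nat.cast_nonneg m)
  unfold EE
  rw [← Real.exp_neg]
  apply Real.exp_le_exp.2
  have h1 : Real.log m ≤ Real.log n :=
    Real.log_le_log (by exact_mod_cast hm) (by exact_mod_cast hmn)
  have h2 : √(Real.log m) ≤ √(Real.log n) := Real.sqrt_le_sqrt h1
  linarith

lemma slack (δ : ℝ) (hδ : 0 < δ) : ∃ n0 : ℕ, ∀ n ≥ n0, 2 ^ 20 ≤ n ∧
    2 ^ 60 * Real.log n * EE n ≤ (n : ℝ) ^ δ := by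
  set Y : ℝ := max (66 / δ) 1 with hY
  refine ⟨⌈Real.exp (Y ^ 2)⌉₊ + 2 ^ 20, fun n hn => ?_⟩
  have hn20 : 2 ^ 20 ≤ n := by omega
  have hnpos : (0 : ℝ) < n := by
    have : 0 < n := by omega
    exact_mod_cast this
  have hnexp : Real.exp (Y ^ 2) ≤ n := by
    refine (Nat.le_ceil _).trans ?_
    have : ⌈Real.exp (Y ^ 2)⌉₊ ≤ n := by omega
    exact_mod_cast this
  have hlog : Y ^ 2 ≤ Real.log n := by
    rw [Real.le_log_iff_exp_le hnpos]
    exact hnexp
  have hY1 : (1 : ℝ) ≤ Y := le_max_right _ _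
  have hYδ : 66 / δ ≤ Y := le_max_left _ _
  set y : ℝ := √(Real.log n) with hy
  have hlog0 : 0 ≤ Real.log n := le_trans (sq_nonneg _) hlog
  have hyy : y ^ 2 = Real.log n := Real.sq_sqrt hlog0
  have hyY : Y ≤ y := by
    rw [hy]
    exact Real.le_sqrt_of_sq_le hlog
  have hy1 : 1 ≤ y := hY1.trans hyY
  have hyδ : 66 ≤ δ * y := by
    have := hYδ.trans hyY
    rw [div_le_iff₀ hδ] at this
    linarith
  have hE : EE n = Real.exp (4 * y) := rfl
  have hpow : (n : ℝ) ^ δ = Real.exp (δ * y ^ 2) := by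
    rw [Real.rpow_def_of_pos hnpos, hyy, mul_comm]
  have two_le : (2 : ℝ) ≤ Real.exp 1 := by
    have := Real.add_one_le_exp (1 : ℝ)
    linarith
  refine ⟨hn20, ?_⟩
  rw [hpow, hE]
  have hlb : Real.log n ≤ Real.exp (2 * y) := by
    rw [← hyy]
    have h1 : y ≤ Real.exp y := by linarith [Real.add_one_le_exp y]
    have := pow_le_pow_left₀ (by linarith) h1 2
    rwa [← Real.exp_nat_mul] at this
  calc 2 ^ 60 * Real.log n * Real.exp (4 * y)
      ≤ Real.exp 1 ^ 60 * Real.exp (2 * y) * Real.exp (4 * y) := by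
        gcongr
    _ = Real.exp (60 + 6 * y) := by
        rw [← Real.exp_nat_mul, ← Real.exp_add, ← Real.exp_add]
        congr 1
        push_cast
        ring
    _ ≤ Real.exp (δ * y ^ 2) := by
        apply Real.exp_le_exp.2
        have h2 : 66 * y ≤ δ * y * y := mul_le_mul_of_nonneg_right hyδ (by linarith)
        have h3 : δ * y ^ 2 = δ * y * y := by ring
        rw [h3]
        linarith

lemma sq_lt_aux {a b : ℝ} (hb : 0 ≤ b) (h : a ^ 2 ≤ b ^ 2) : a ≤ b := by
  by_contra hcon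
  push Not at hcon
  have := pow_lt_pow_left₀ hcon hb (n := 2) (by norm_num)
  linarith

/-- the final computation -/
lemma numcore {n k s w T J P E l V R N : ℝ} (hn : 0 < n) (hk : 1 ≤ k) (hw : 1 ≤ w)
    (hs0 : 0 < s) (hw2 : s ≤ 4 * k * w ^ 2) (_hT : 0 ≤ T) (hJ : 0 ≤ J) (hP : 1 ≤ P)
    (ha : T ^ 2 * k ^ 3 * s * P ^ 2 ≤ n ^ 6) (hb : k * s * J * P ^ 2 ≤ n ^ 2)
    (hc : k * s * P ^ 2 ≤ 400 * n ^ 2)
    (hV : V ≤ 384 * k * T / n ^ 2 + 96 * k * w * (J + 1) / n) (hR : R ≤ 100 * V + 2)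
    (hE : 0 < E) (hl : 0 < l) (hN : w * n / (8 * E) ≤ N)
    (hmain : N / 39200 ≤ R * (30 * s * l) + 6) (hs1 : 2 ^ 60 * l * E ≤ P)
    (hs2 : 2 ^ 60 * E ≤ n) : False := by
  have hP0 : 0 < P := by linarith
  have hk0 : 0 < k := by linarith
  have hw0 : 0 < w := by linarith
  -- three terms
  have t1 : k * s * (J + 1) * P ≤ 401 * n ^ 2 := by
    have h1 : k * s * (J + 1) * P ^ 2 ≤ 401 * n ^ 2 := by
      have : k * s * (J + 1) * P ^ 2 = k * s * J * P ^ 2 + k * s * P ^ 2 := by ring
      rw [this]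
      linarith
    have h2 : k * s * (J + 1) * P ≤ k * s * (J + 1) * P ^ 2 := by
      have h3 : P ≤ P ^ 2 := by
        have := mul_le_mul_of_nonneg_left hP hP0.le
        calc P = P * 1 := by ring
          _ ≤ P * P := this
          _ = P ^ 2 := by ring
      exact mul_le_mul_of_nonneg_left h3 (by positivity)
    linarith
  have t2 : k * s * T * P ≤ 2 * w * n ^ 3 := by
    apply sq_lt_aux (by positivity)
    have h1 : (k * s * T * P) ^ 2 * k = (T ^ 2 * k ^ 3 * s * P ^ 2) * s := by ring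
    have h2 : (T ^ 2 * k ^ 3 * s * P ^ 2) * s ≤ n ^ 6 * (4 * k * w ^ 2) :=
      mul_le_mul ha hw2 hs0.le (by positivity)
    have h3 : (k * s * T * P) ^ 2 * k ≤ (2 * w * n ^ 3) ^ 2 * k := by
      rw [h1]
      refine h2.trans (le_of_eq ?_)
      ring
    exact le_of_mul_le_mul_right h3 hk0
  have t3 : s * P ≤ 40 * w * n := by
    apply sq_lt_aux (by positivity)
    have h1 : (s * P) ^ 2 * k = (k * s * P ^ 2) * s := by ring
    have h2 : (k * s * P ^ 2) * s ≤ 400 * n ^ 2 * (4 * k * w ^ 2) :=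
      mul_le_mul hc hw2 hs0.le (by positivity)
    have h3 : (s * P) ^ 2 * k ≤ (40 * w * n) ^ 2 * k := by
      rw [h1]
      refine h2.trans (le_of_eq ?_)
      ring
    exact le_of_mul_le_mul_right h3 hk0
  -- R s P
  have t4 : R * (s * P) ≤ 2 ^ 22 * (w * n) := by
    have hsP : 0 ≤ s * P := by positivity
    have h1 : R * (s * P) ≤
        (100 * (384 * k * T / n ^ 2 + 96 * k * w * (J + 1) / n) + 2) * (s * P) :=
      mul_le_mul_of_nonneg_right (by linarith) hsP
    have h2 : (100 * (384 * k * T / n ^ 2 + 96 * k * w * (J + 1) / n) + 2) * (s * P) =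
        38400 * ((k * s * T * P) / n ^ 2) + 9600 * (w * ((k * s * (J + 1) * P) / n)) +
          2 * (s * P) := by
      field_simp
      ring
    have h3 : (k * s * T * P) / n ^ 2 ≤ 2 * w * n := by
      rw [div_le_iff₀ (by positivity)]
      refine t2.trans (le_of_eq ?_)
      ring
    have h4 : (k * s * (J + 1) * P) / n ≤ 401 * n := by
      rw [div_le_iff₀ hn]
      refine t1.trans (le_of_eq ?_)
      ring
    have h5 := mul_le_mul_of_nonneg_left h4 hw0.le
    have h6 : 0 ≤ w * n := by positivity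
    rw [h2] at h1
    have h7 : w * (401 * n) = 401 * (w * n) := by ring
    have h8 : 2 * w * n = 2 * (w * n) := by ring
    have h9 : 40 * w * n = 40 * (w * n) := by ring
    rw [h7] at h5
    rw [h8] at h3
    rw [h9] at t3
    norm_num
    linarith
  have t5 : P * (N / 39200 - 6) ≤ 2 ^ 27 * (l * (w * n)) := by
    have h1 : P * (N / 39200 - 6) ≤ P * (R * (30 * s * l)) :=
      mul_le_mul_of_nonneg_left (by linarith) hP0.le
    have h2 : P * (R * (30 * s * l)) = 30 * l * (R * (s * P)) := by ring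
    have h3 : 30 * l * (R * (s * P)) ≤ 30 * l * (2 ^ 22 * (w * n)) :=
      mul_le_mul_of_nonneg_left t4 (by positivity)
    have h4 : 30 * l * (2 ^ 22 * (w * n)) ≤ 2 ^ 27 * (l * (w * n)) := by
      have h5 : 0 ≤ l * (w * n) := by positivity
      have h6 : 30 * l * (2 ^ 22 * (w * n)) = 30 * 2 ^ 22 * (l * (w * n)) := by ring
      rw [h6]
      exact mul_le_mul_of_nonneg_right (by norm_num) h5
    rw [h2] at h1
    linarith
  have t6 : w * n / (627200 * E) ≤ N / 39200 - 6 := by
    have h1 : w * n / (8 * E) / 39200 ≤ N / 39200 := div_le_div_of_nonneg_right hN (by norm_num)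
    have h2 : w * n / (8 * E) / 39200 = 2 * (w * n / (627200 * E)) := by
      field_simp
      norm_num
    have h3 : 6 ≤ w * n / (627200 * E) := by
      rw [le_div_iff₀ (by positivity)]
      have h4 : n ≤ w * n := by
        have := mul_le_mul_of_nonneg_right hw hn.le
        linarith
      have h5 : 6 * (627200 * E) ≤ 2 ^ 60 * E := by
        have : 6 * (627200 * E) = 3763200 * E := by ring
        rw [this]
        exact mul_le_mul_of_nonneg_right (by norm_num) hE.le
      linarith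
    linarith
  have t7 : P * (w * n / (627200 * E)) ≤ 2 ^ 27 * (l * (w * n)) :=
    (mul_le_mul_of_nonneg_left t6 hP0.le).trans t5
  have hwn : 0 < w * n := by positivity
  have t8 : P ≤ 2 ^ 27 * 627200 * (l * E) := by
    have h1 : P * (w * n / (627200 * E)) = P * (w * n) / (627200 * E) := by ring
    rw [h1, div_le_iff₀ (by positivity)] at t7
    have h2 : 2 ^ 27 * (l * (w * n)) * (627200 * E) = 2 ^ 27 * 627200 * (l * E) * (w * n) := by
      ring
    rw [h2] at t7
    exact le_of_mul_le_mul_right t7 hwn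
  have hlE : 0 < l * E := by positivity
  have t9 : 2 ^ 60 * (l * E) ≤ 2 ^ 27 * 627200 * (l * E) := by
    have : 2 ^ 60 * l * E = 2 ^ 60 * (l * E) := by ring
    rw [this] at hs1
    linarith
  have := le_of_mul_le_mul_right t9 hlE
  norm_num at this

end Pool.Agent.UT
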