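import Mathlib
import Pool.Agent.Lib_helper21.UT.Num

/-!
# The trade-off
-/

set_option linter.unusedSectionVars false

open MeasureTheory

namespace Pool.Agent.UT

lemma lay_exists (n w : ℕ) (hw : 1 ≤ w) (h : 12 * w ≤ n) :
    ∃ L : Lay n, L.w = w ∧ 0 < L.G ∧ (n : ℝ) / (16 * w) ≤ L.G ∧ (w : ℝ) * n / 4 ≤ L.len ∧
      L.len ≤ n ^ 2 ∧ (w : ℝ) * n / (8 * EE n) ≤ Fintype.card L.E := by
  set p := n / (3 * w) with hp
  have hp4 : 4 ≤ p := by
    rw [hp, Nat.le_div_iff_mul_le (by omega)]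
    omega
  have hpn : 3 * (p * w) ≤ n := by
    have := Nat.div_mul_le_self n (3 * w)
    rw [← hp] at this
    have h2 : 3 * (p * w) = p * (3 * w) := by ring
    rw [h2]
    exact this
  have hn1 : n < 3 * (p * w) + 3 * w := by
    have := Nat.lt_div_mul_add (a := n) (b := 3 * w) (by omega)
    rw [← hp] at this
    have h2 : 3 * (p * w) = p * (3 * w) := by ring
    rw [h2]
    exact this
  have hpw4 : n ≤ 4 * (p * w) := by omega
  set G := p / 2 with hG
  have hG0 : 0 < G := by omega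
  have hGp : G < p := by omega
  have hG4 : p ≤ 4 * G := by omega
  have hGp2 : p ≤ 2 * (p - G) := by omega
  obtain ⟨D, hDs, hDc, hDf⟩ := rothNumberNat_spec ((p - G) * w)
  let L : Lay n :=
    { w := w
      G := G
      p := p
      D := D
      hw := hw
      hGp := hGp
      hn := hpn
      hD := fun d hd => Finset.mem_range.1 (hDs hd)
      free := hDf }
  have hw0 : (0 : ℝ) < w := by exact_mod_cast hw
  have hpw4' : (n : ℝ) ≤ 4 * (p * w) := by exact_mod_cast hpw4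
  have hpn' : p * w ≤ n := by omega
  have hwn : w ≤ n := by omega
  refine ⟨L, rfl, hG0, ?_, ?_, ?_, ?_⟩
  · show (n : ℝ) / (16 * w) ≤ G
    rw [div_le_iff₀ (by positivity)]
    have h1 : (p : ℝ) ≤ 4 * G := by exact_mod_cast hG4
    have h2 : (p : ℝ) * w ≤ 4 * G * w := mul_le_mul_of_nonneg_right h1 hw0.le
    linarith
  · show (w : ℝ) * n / 4 ≤ ((w * (p * w) : ℕ) : ℝ)
    push_cast
    have h1 := mul_le_mul_of_nonneg_left hpw4' hw0.le
    linarith
  · show w * (p * w) ≤ n ^ 2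
    calc w * (p * w) ≤ n * n := Nat.mul_le_mul hwn hpn'
      _ = n ^ 2 := by ring
  · have hcard : Fintype.card L.E = w * D.card := by
      have : Fintype.card L.E = Fintype.card (Fin w) * Fintype.card D := Fintype.card_prod _ _
      rw [this, Fintype.card_fin, Fintype.card_coe]
    rw [hcard, hDc]
    push_cast
    have hm1 : 1 ≤ (p - G) * w := Nat.mul_pos (by omega) hw
    have hmn : (p - G) * w ≤ n := (Nat.mul_le_mul_right _ (Nat.sub_le _ _)).trans hpn'
    have h1 := roth_ge hm1 hmn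
    have hE := EE_pos n
    have h2 : (n : ℝ) / 8 ≤ ((p - G) * w : ℕ) := by
      have h3 : n ≤ 8 * ((p - G) * w) := by
        calc n ≤ 4 * (p * w) := hpw4
          _ ≤ 4 * ((2 * (p - G)) * w) := by
            apply Nat.mul_le_mul_left
            exact Nat.mul_le_mul_right _ hGp2
          _ = 8 * ((p - G) * w) := by ring
      have h4 : (n : ℝ) ≤ 8 * (((p - G) * w : ℕ) : ℝ) := by exact_mod_cast h3
      linarith
    have h3 : (n : ℝ) / 8 / EE n ≤ (rothNumberNat ((p - G) * w) : ℝ) :=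
      (div_le_div_of_nonneg_right h2 hE.le).trans h1
    have h4 := mul_le_mul_of_nonneg_left h3 hw0.le
    refine le_trans (le_of_eq ?_) h4
    field_simp

lemma card_cell (n : ℕ) : Fintype.card (Cell n) ≤ n ^ 2 := by
  have h1 : Fintype.card (Cell n) ≤ Fintype.card (Fin n × Fin n) := by
    refine Fintype.card_le_of_injective (fun c => ofLex c.1) ?_
    intro c c' h
    exact Subtype.ext h
  rw [Fintype.card_prod, Fintype.card_fin] at h1
  rw [sq]
  exact h1

lemma card_St {n k : ℕ} {Q : Type} [Fintype Q] (L : Lay n) (H : ℕ) :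
    Fintype.card (L.St H k Q) ≤ (H + 1) * ((Fintype.card Q * (n ^ 2) ^ k) *
      ((L.len + 1) * (2 ^ (3 * (k * L.w ^ 2)) + 2))) := by
  have h1 : Fintype.card (L.St H k Q) = Fintype.card (Fin (H + 1)) *
      ((Fintype.card Q * Fintype.card (Fin k → Cell n)) * (Fintype.card (Fin (L.len + 1)) *
        Fintype.card (Option (Option (L.Bits k))))) := by
    rw [← Fintype.card_prod, ← Fintype.card_prod, ← Fintype.card_prod, ← Fintype.card_prod]
  have h2 : Fintype.card (L.Bits k) = 2 ^ (3 * (k * L.w ^ 2)) := by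
    simp only [Fintype.card_fun, Fintype.card_bool, Fintype.card_fin]
    rw [← pow_mul, ← pow_mul, ← pow_mul]
    congr 1
    ring
  rw [h1, Fintype.card_option, Fintype.card_option, h2, Fintype.card_fin, Fintype.card_fin,
    Fintype.card_fun, Fintype.card_fin]
  apply Nat.mul_le_mul_left
  apply Nat.mul_le_mul _ le_rfl
  apply Nat.mul_le_mul_left
  exact Nat.pow_le_pow_left (card_cell n) k

lemma two_pow_le_exp (a : ℕ) : (2 : ℝ) ^ a ≤ Real.exp a := by
  have h1 : (2 : ℝ) ≤ Real.exp 1 := by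
    have := Real.add_one_le_exp (1 : ℝ)
    linarith
  calc (2 : ℝ) ^ a ≤ Real.exp 1 ^ a := pow_le_pow_left₀ (by norm_num) h1 a
    _ = Real.exp a := by
      rw [← Real.exp_nat_mul, mul_one]

lemma card_St_exp {n k : ℕ} {Q : Type} [Fintype Q] (L : Lay n) (H S : ℕ) (hn : 3 ≤ n)
    (hk : 1 ≤ k) (hQ : Fintype.card Q ≤ 2 ^ S) (hH : H + 1 ≤ n ^ 4) (hlen : L.len ≤ n ^ 2)
    (hw : k * L.w ^ 2 ≤ S + k) :
    (Fintype.card (L.St H k Q) : ℝ) ≤ Real.exp (15 * ((S : ℝ) + k) * Real.log n) := by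
  have hn0 : (0 : ℝ) < n := by
    have : 0 < n := by omega
    exact_mod_cast this
  set l := Real.log n with hl
  have hnl : (n : ℝ) = Real.exp l := (Real.exp_log hn0).symm
  have hl1 : 1 ≤ l := by
    rw [hl, Real.le_log_iff_exp_le hn0]
    have h1 := Real.exp_one_lt_d9
    have h2 : (3 : ℝ) ≤ n := by exact_mod_cast hn
    linarith
  have h0 : (Fintype.card (L.St H k Q) : ℝ) ≤ ((H + 1 : ℕ) : ℝ) *
      ((((Fintype.card Q : ℕ) : ℝ) * ((n : ℝ) ^ 2) ^ k) *
      ((((L.len : ℕ) : ℝ) + 1) * (2 ^ (3 * (k * L.w ^ 2)) + 2))) := by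
    have := card_St (k := k) (Q := Q) L H
    exact_mod_cast this
  have f1 : ((H + 1 : ℕ) : ℝ) ≤ Real.exp (4 * l) := by
    have h1 : ((H + 1 : ℕ) : ℝ) ≤ (n : ℝ) ^ 4 := by exact_mod_cast hH
    refine h1.trans (le_of_eq ?_)
    rw [hnl, ← Real.exp_nat_mul]
    norm_num
  have f2 : ((Fintype.card Q : ℕ) : ℝ) ≤ Real.exp S := by
    have h1 : ((Fintype.card Q : ℕ) : ℝ) ≤ (2 : ℝ) ^ S := by exact_mod_cast hQ
    exact h1.trans (two_pow_le_exp S)
  have f3 : ((n : ℝ) ^ 2) ^ k = Real.exp (2 * k * l) := by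
    rw [hnl, ← pow_mul, ← Real.exp_nat_mul]
    congr 1
    push_cast
    ring
  have f4 : ((L.len : ℕ) : ℝ) + 1 ≤ Real.exp (2 * l + 1) := by
    have h1 : ((L.len : ℕ) : ℝ) ≤ (n : ℝ) ^ 2 := by exact_mod_cast hlen
    have h2 : (1 : ℝ) ≤ (n : ℝ) ^ 2 := by
      have : 1 ≤ n ^ 2 := Nat.one_le_pow _ _ (by omega)
      exact_mod_cast this
    have h3 : (n : ℝ) ^ 2 = Real.exp (2 * l) := by
      rw [hnl, ← Real.exp_nat_mul]
      norm_num
    have h4 : Real.exp (2 * l + 1) = Real.exp (2 * l) * Real.exp 1 := Real.exp_add _ _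
    have h5 : (2 : ℝ) ≤ Real.exp 1 := by
      have := Real.add_one_le_exp (1 : ℝ)
      linarith
    have h6 := mul_le_mul_of_nonneg_left h5 (Real.exp_pos (2 * l)).le
    rw [h4]
    linarith
  have f5 : (2 : ℝ) ^ (3 * (k * L.w ^ 2)) + 2 ≤ Real.exp (3 * ((S : ℝ) + k) + 2) := by
    have h1 : (2 : ℝ) ^ (3 * (k * L.w ^ 2)) + 2 ≤ 2 ^ (3 * (k * L.w ^ 2) + 2) := by
      have h2 : (1 : ℝ) ≤ 2 ^ (3 * (k * L.w ^ 2)) := one_le_pow₀ (by norm_num)
      have h3 : (2 : ℝ) ^ (3 * (k * L.w ^ 2) + 2) = 4 * 2 ^ (3 * (k * L.w ^ 2)) := by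
        rw [pow_add]
        ring
      linarith
    refine h1.trans ((two_pow_le_exp _).trans ?_)
    apply Real.exp_le_exp.2
    have h2 : ((3 * (k * L.w ^ 2) + 2 : ℕ) : ℝ) ≤ ((3 * (S + k) + 2 : ℕ) : ℝ) := by
      exact_mod_cast (by omega : 3 * (k * L.w ^ 2) + 2 ≤ 3 * (S + k) + 2)
    refine h2.trans (le_of_eq ?_)
    push_cast
    ring
  refine h0.trans ?_
  rw [f3]
  calc ((H + 1 : ℕ) : ℝ) * ((((Fintype.card Q : ℕ) : ℝ) * Real.exp (2 * k * l)) *
      ((((L.len : ℕ) : ℝ) + 1) * (2 ^ (3 * (k * L.w ^ 2)) + 2)))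
      ≤ Real.exp (4 * l) * ((Real.exp S * Real.exp (2 * k * l)) *
        (Real.exp (2 * l + 1) * Real.exp (3 * ((S : ℝ) + k) + 2))) := by
        gcongr
    _ = Real.exp (4 * l + ((S + 2 * k * l) + ((2 * l + 1) + (3 * ((S : ℝ) + k) + 2)))) := by
        rw [← Real.exp_add, ← Real.exp_add, ← Real.exp_add, ← Real.exp_add]
    _ ≤ Real.exp (15 * ((S : ℝ) + k) * l) := by
        apply Real.exp_le_exp.2
        have hk1 : (1 : ℝ) ≤ k := by exact_mod_cast hk
        have hS : (0 : ℝ) ≤ S := Nat.cast_nonneg _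
        have a1 : (S : ℝ) ≤ S * l := by
          have := mul_le_mul_of_nonneg_left hl1 hS
          linarith
        have a2 : (k : ℝ) ≤ k * l := by
          have := mul_le_mul_of_nonneg_left hl1 (by linarith : (0 : ℝ) ≤ k)
          linarith
        have a3 : l ≤ k * l := by
          have := mul_le_mul_of_nonneg_right hk1 (by linarith : (0 : ℝ) ≤ l)
          linarith
        have a4 : 0 ≤ S * l := mul_nonneg hS (by linarith)
        have a5 : 15 * ((S : ℝ) + k) * l = 15 * (S * l) + 15 * (k * l) := by ring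
        have a6 : 2 * (k : ℝ) * l = 2 * (k * l) := by ring
        rw [a5, a6]
        linarith

theorem main (ε : ℝ) (hε : 0 < ε) : ∃ n0 : ℕ, ∀ n ≥ n0, ∀ (k S : ℕ) (T J : ℝ), 1 ≤ k →
    ∀ (Q Ω : Type) [Fintype Q] [MeasurableSpace Ω] (μ : Measure Ω) [IsProbabilityMeasure μ],
      Fintype.card Q ≤ 2 ^ S → ∀ M : Machine n k Q Ω, M.DetectsTriangles μ →
      M.ExpectedTimeLE μ T → M.ExpectedJumpsLE μ J →
      (n : ℝ) ^ (6 - ε) ≤ T ^ 2 * (k : ℝ) ^ 3 * ((S : ℝ) + k) ∨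
        (n : ℝ) ^ (2 - ε) ≤ (k : ℝ) * ((S : ℝ) + k) * J := by
  set ε' := min ε 1 with hε'
  have hε0 : 0 < ε' := lt_min hε one_pos
  have hεε : ε' ≤ ε := min_le_left _ _
  have hε1 : ε' ≤ 1 := min_le_right _ _
  obtain ⟨n0, hn0⟩ := slack (ε' / 2) (by linarith)
  refine ⟨n0, fun n hn k S T J hk Q Ω _ _ μ _ hQ M hd hT hJ => ?_⟩
  obtain ⟨hn20, hsl⟩ := hn0 n hn
  by_contra hcon
  push Not at hcon
  obtain ⟨hA, hB⟩ := hcon
  have hnpos : (0 : ℝ) < n := by
    have : 0 < n := by omega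
    exact_mod_cast this
  have hn1 : (1 : ℝ) ≤ n := by
    have : 1 ≤ n := by omega
    exact_mod_cast this
  have hnbig : (2 : ℝ) ^ 20 ≤ n := by exact_mod_cast hn20
  set P : ℝ := (n : ℝ) ^ (ε' / 2) with hP
  set s : ℝ := (S : ℝ) + k with hs
  set l := Real.log n with hl
  set E := EE n with hE
  have hk1 : (1 : ℝ) ≤ k := by exact_mod_cast hk
  have hk0 : (0 : ℝ) < k := by linarith
  have hS0 : (0 : ℝ) ≤ S := Nat.cast_nonneg _
  have hs0 : 0 < s := by linarith
  have hks : (k : ℝ) ≤ s := by linarith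
  have hT0 : 0 ≤ T := by simpa using hT ⊥ 0
  have hJ0 : 0 ≤ J := by simpa using hJ ⊥ 0
  have hE1 : 1 ≤ E := one_le_EE n
  have hl1 : 1 ≤ l := by
    rw [hl, Real.le_log_iff_exp_le hnpos]
    have h1 := Real.exp_one_lt_d9
    have h2 : (3 : ℝ) ≤ 2 ^ 20 := by norm_num
    linarith
  have hPP : P ^ 2 = (n : ℝ) ^ ε' := by
    rw [hP, ← Real.rpow_natCast, ← Real.rpow_mul hnpos.le]
    congr 1
    push_cast
    ring
  have hPn : P ≤ n := by
    have := Real.rpow_le_rpow_of_exponent_le hn1 (by linarith : ε' / 2 ≤ 1)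
    rwa [Real.rpow_one] at this
  have hP60 : 2 ^ 60 ≤ P := by
    have h1 : (1 : ℝ) ≤ l * E := by
      have := mul_le_mul hl1 hE1 (by norm_num) (by linarith)
      linarith
    have h2 : (2 : ℝ) ^ 60 * l * E = 2 ^ 60 * (l * E) := by ring
    rw [h2] at hsl
    have h3 := mul_le_mul_of_nonneg_left h1 (by norm_num : (0 : ℝ) ≤ 2 ^ 60)
    linarith
  have hP1 : 1 ≤ P := le_trans (by norm_num) hP60
  have ha : T ^ 2 * k ^ 3 * s * P ^ 2 ≤ (n : ℝ) ^ 6 := by
    have h1 : (n : ℝ) ^ (6 - ε) ≤ (n : ℝ) ^ (6 - ε') :=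
      Real.rpow_le_rpow_of_exponent_le hn1 (by linarith)
    have h2 : (n : ℝ) ^ (6 - ε') * P ^ 2 = (n : ℝ) ^ 6 := by
      rw [hPP, ← Real.rpow_add hnpos, ← Real.rpow_natCast]
      congr 1
      push_cast
      ring
    rw [← h2]
    exact mul_le_mul_of_nonneg_right (hA.le.trans h1) (by positivity)
  have hb : k * s * J * P ^ 2 ≤ (n : ℝ) ^ 2 := by
    have h1 : (n : ℝ) ^ (2 - ε) ≤ (n : ℝ) ^ (2 - ε') :=
      Real.rpow_le_rpow_of_exponent_le hn1 (by linarith)
    have h2 : (n : ℝ) ^ (2 - ε') * P ^ 2 = (n : ℝ) ^ 2 := by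
      rw [hPP, ← Real.rpow_add hnpos, ← Real.rpow_natCast]
      congr 1
      push_cast
      ring
    rw [← h2]
    exact mul_le_mul_of_nonneg_right (hB.le.trans h1) (by positivity)
  -- the machine reads the tape
  have hread : (n : ℝ) ^ 2 / 20 ≤ k * T := by
    have h1 := read_bound M μ hT hd ((n - 1) / 2) (by omega) (⌈12 * T⌉₊ + 1) (by omega)
    have h2 : T / ((⌈12 * T⌉₊ + 1 : ℕ) : ℝ) ≤ 1 / 12 := by
      have h3 : 12 * T ≤ (⌈12 * T⌉₊ : ℝ) := Nat.le_ceil _
      rw [div_le_iff₀ (by positivity)]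
      push_cast
      linarith
    have h3 : (n : ℝ) - 2 ≤ 2 * (((n - 1) / 2 : ℕ) : ℝ) := by
      have h4 : n ≤ 2 * ((n - 1) / 2) + 2 := by omega
      have h5 : (n : ℝ) ≤ 2 * (((n - 1) / 2 : ℕ) : ℝ) + 2 := by exact_mod_cast h4
      linarith
    set q : ℝ := (((n - 1) / 2 : ℕ) : ℝ) with hq
    have h4 : (n : ℝ) ^ 2 / 5 ≤ q ^ 2 := by
      have h5 : 9 / 10 * (n : ℝ) ≤ 2 * q := by
        have : (20 : ℝ) ≤ n := le_trans (by norm_num) hnbig
        linarith
      have h6 := pow_le_pow_left₀ (by positivity) h5 2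
      have h7 : (0 : ℝ) ≤ (n : ℝ) ^ 2 := by positivity
      have h8 : (9 / 10 * (n : ℝ)) ^ 2 = 81 / 100 * (n : ℝ) ^ 2 := by ring
      have h9 : (2 * q) ^ 2 = 4 * q ^ 2 := by ring
      rw [h8, h9] at h6
      linarith
    have h5 : 1 / 4 * q ^ 2 ≤ (1 / 3 - T / ((⌈12 * T⌉₊ + 1 : ℕ) : ℝ)) * q ^ 2 :=
      mul_le_mul_of_nonneg_right (by linarith) (by positivity)
    linarith
  have hc : k * s * P ^ 2 ≤ 400 * (n : ℝ) ^ 2 := by
    have h1 : ((n : ℝ) ^ 2 / 20) ^ 2 ≤ (k * T) ^ 2 := pow_le_pow_left₀ (by positivity) hread 2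
    have h2 : ((n : ℝ) ^ 2 / 20) ^ 2 * (k * s * P ^ 2) ≤ (n : ℝ) ^ 6 := by
      refine (mul_le_mul_of_nonneg_right h1 (by positivity)).trans (le_trans (le_of_eq ?_) ha)
      ring
    have h3 : ((n : ℝ) ^ 2 / 20) ^ 2 * (k * s * P ^ 2) ≤
        ((n : ℝ) ^ 2 / 20) ^ 2 * (400 * (n : ℝ) ^ 2) := by
      refine h2.trans (le_of_eq ?_)
      ring
    exact le_of_mul_le_mul_left h3 (by positivity)
  -- the height of a core
  set w := Nat.sqrt ((S + k) / k) with hw
  have hq1 : 1 ≤ (S + k) / k := (Nat.one_le_div_iff (by omega)).2 (by omega)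
  have hw1 : 1 ≤ w := by
    rw [hw, Nat.le_sqrt]
    omega
  have hkw : k * w ^ 2 ≤ S + k := by
    have h1 : w * w ≤ (S + k) / k := Nat.sqrt_le _
    have h2 : (S + k) / k * k ≤ S + k := Nat.div_mul_le_self _ _
    calc k * w ^ 2 = w * w * k := by ring
      _ ≤ (S + k) / k * k := Nat.mul_le_mul_right _ h1
      _ ≤ S + k := h2
  have hw2 : S + k ≤ 4 * k * w ^ 2 := by
    have h1 : (S + k) / k < (w + 1) * (w + 1) := Nat.lt_succ_sqrt _
    have h2 : S + k < (w + 1) * (w + 1) * k := (Nat.div_lt_iff_lt_mul (by omega)).1 h1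
    have h3 : w + 1 ≤ 2 * w := by omega
    have h4 : (w + 1) * (w + 1) ≤ (2 * w) * (2 * w) := Nat.mul_le_mul h3 h3
    calc S + k ≤ (w + 1) * (w + 1) * k := h2.le
      _ ≤ (2 * w) * (2 * w) * k := Nat.mul_le_mul_right _ h4
      _ = 4 * k * w ^ 2 := by ring
  have hw1' : (1 : ℝ) ≤ w := by exact_mod_cast hw1
  have hw0' : (0 : ℝ) < w := by linarith
  have hkw' : (k : ℝ) * w ^ 2 ≤ s := by
    rw [hs]
    exact_mod_cast hkw
  have hw2' : s ≤ 4 * k * (w : ℝ) ^ 2 := by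
    rw [hs]
    exact_mod_cast hw2
  have h12 : 12 * w ≤ n := by
    have h1 : (w * P) ^ 2 ≤ (20 * (n : ℝ)) ^ 2 := by
      have h2 : (w * P) ^ 2 ≤ k * s * P ^ 2 := by
        have h3 : (w : ℝ) ^ 2 ≤ k * s := by
          have h4 : (w : ℝ) ^ 2 ≤ k * w ^ 2 := by
            have := mul_le_mul_of_nonneg_right hk1 (sq_nonneg (w : ℝ))
            linarith
          have h5 : s ≤ k * s := by
            have := mul_le_mul_of_nonneg_right hk1 hs0.le
            linarith
          linarith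
        have := mul_le_mul_of_nonneg_right h3 (sq_nonneg P)
        calc (w * P) ^ 2 = (w : ℝ) ^ 2 * P ^ 2 := by ring
          _ ≤ k * s * P ^ 2 := this
      refine h2.trans (hc.trans (le_of_eq ?_))
      ring
    have h2 : (w : ℝ) * P ≤ 20 * n := sq_lt_aux (by positivity) h1
    have h3 : (w : ℝ) * 2 ^ 60 ≤ w * P := mul_le_mul_of_nonneg_left hP60 hw0'.le
    have h4 : (12 : ℝ) * w ≤ n := by
      have h5 : (0 : ℝ) < w := hw0'
      norm_num at h3
      linarith
    exact_mod_cast h4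
  obtain ⟨L, hLw, hG0, hGn, hlen, hlen2, hNn⟩ := lay_exists n w hw1 h12
  have hG0' : (0 : ℝ) < L.G := by exact_mod_cast hG0
  have hlen0 : (0 : ℝ) < L.len := by exact_mod_cast L.len_pos
  have hE0 : 0 < E := by linarith
  set N : ℝ := (Fintype.card L.E : ℝ) with hN
  have hN0 : 0 < N := lt_of_lt_of_le (by positivity) hNn
  have hcardE : 0 < Fintype.card L.E := by
    rw [hN] at hN0
    exact_mod_cast hN0
  set H := ⌈100 * T⌉₊ + 1 with hH
  set V : ℝ := 6 * k / L.G * (T / L.len + J + 1) with hV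
  have hV0 : 0 ≤ V := by
    rw [hV]
    positivity
  set R := ⌈100 * V⌉₊ + 1 with hR
  have hRV : 100 * V ≤ R := by
    rw [hR]
    push_cast
    have := Nat.le_ceil (100 * V)
    linarith
  have hRV2 : (R : ℝ) ≤ 100 * V + 2 := by
    rw [hR]
    push_cast
    have := Nat.ceil_lt_add_one (by linarith : 0 ≤ 100 * V)
    linarith
  have hR0 : (0 : ℝ) < R := by
    rw [hR]
    positivity
  have hmain := main_ineq M μ hd hT hJ L H R (by omega) (by omega) hG0 hcardE (N / 400)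
    (by positivity)
  rw [← hN] at hmain
  -- cardinality of the transcripts
  have hT3 : T ≤ (n : ℝ) ^ 3 := by
    apply sq_lt_aux (by positivity)
    have h1 : T ^ 2 ≤ T ^ 2 * k ^ 3 * s * P ^ 2 := by
      have h2 : (1 : ℝ) ≤ k ^ 3 * s * P ^ 2 := by
        have h3 : (1 : ℝ) ≤ k ^ 3 := one_le_pow₀ hk1
        have h4 : (1 : ℝ) ≤ s := hk1.trans hks
        have h5 : (1 : ℝ) ≤ P ^ 2 := one_le_pow₀ hP1
        have h6 := one_le_mul_of_one_le_of_one_le h3 h4
        exact one_le_mul_of_one_le_of_one_le h6 h5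
      have h3 := mul_le_mul_of_nonneg_left h2 (sq_nonneg T)
      calc T ^ 2 = T ^ 2 * 1 := by ring
        _ ≤ T ^ 2 * (k ^ 3 * s * P ^ 2) := h3
        _ = T ^ 2 * k ^ 3 * s * P ^ 2 := by ring
    refine h1.trans (ha.trans (le_of_eq ?_))
    ring
  have hH4 : H + 1 ≤ n ^ 4 := by
    have h1 : ⌈100 * T⌉₊ ≤ 100 * n ^ 3 := by
      apply Nat.ceil_le.2
      push_cast
      linarith
    have h2 : 103 * n ^ 3 ≤ n * n ^ 3 := Nat.mul_le_mul_right _ (by omega)
    have h3 : 1 ≤ n ^ 3 := Nat.one_le_pow _ _ (by omega)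
    calc H + 1 ≤ 100 * n ^ 3 + 3 := by omega
      _ ≤ 103 * n ^ 3 := by omega
      _ ≤ n * n ^ 3 := h2
      _ = n ^ 4 := by ring
  have hcard := card_St_exp (k := k) (Q := Q) L H S (by omega) hk hQ hH4 hlen2
    (by rw [hLw]; exact hkw)
  rw [← hs, ← hl] at hcard
  have hX : (Fintype.card (L.St H k Q × L.St H k Q) : ℝ) ^ R ≤ Real.exp (R * (30 * s * l)) := by
    have h1 : (Fintype.card (L.St H k Q × L.St H k Q) : ℝ) =
        (Fintype.card (L.St H k Q) : ℝ) ^ 2 := by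
      have : Fintype.card (L.St H k Q × L.St H k Q) =
          Fintype.card (L.St H k Q) * Fintype.card (L.St H k Q) := by
        exact Fintype.card_prod _ _
      rw [this]
      push_cast
      ring
    rw [h1, ← pow_mul]
    refine (pow_le_pow_left₀ (Nat.cast_nonneg _) hcard _).trans (le_of_eq ?_)
    rw [← Real.exp_nat_mul]
    congr 1
    push_cast
    ring
  have hTH : T / H ≤ 1 / 100 := by
    have h3 : 100 * T ≤ (⌈100 * T⌉₊ : ℝ) := Nat.le_ceil _
    rw [div_le_iff₀ (by rw [hH]; positivity), hH]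
    push_cast
    linarith
  have hVR : 6 * (k : ℝ) / (R * L.G) * (T / L.len + J + 1) ≤ 1 / 100 := by
    have h1 : 6 * (k : ℝ) / (R * L.G) * (T / L.len + J + 1) = V / R := by
      rw [hV]
      field_simp
    rw [h1, div_le_iff₀ hR0]
    linarith
  have hr0 : 8 * (N / 400) / N = 1 / 50 := by
    field_simp
    norm_num
  rw [hr0] at hmain
  have hfin : Real.exp (-6) ≤ Real.exp (R * (30 * s * l) - N / 39200) := by
    have h1 : Real.exp (R * (30 * s * l) - N / 39200) =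
        Real.exp (R * (30 * s * l)) * Real.exp (-(N / 400) / 98) := by
      rw [← Real.exp_add]
      congr 1
      ring
    have h2 : 8 * (Fintype.card (L.St H k Q × L.St H k Q) : ℝ) ^ R *
        Real.exp (-(N / 400) / 98) ≤
        8 * (Real.exp (R * (30 * s * l)) * Real.exp (-(N / 400) / 98)) := by
      rw [mul_assoc]
      refine mul_le_mul_of_nonneg_left ?_ (by norm_num)
      exact mul_le_mul_of_nonneg_right hX (Real.exp_pos _).le
    have h3 : Real.exp (-6) ≤ 1 / 300 := by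
      have h4 : (300 : ℝ) ≤ Real.exp 6 := by
        have h5 := Real.exp_one_gt_d9
        have h6 : (2.7 : ℝ) ^ 6 ≤ Real.exp 1 ^ 6 := pow_le_pow_left₀ (by norm_num) (by linarith) 6
        rw [← Real.exp_nat_mul] at h6
        norm_num at h6
        linarith
      rw [Real.exp_neg, ← one_div]
      exact one_div_le_one_div_of_le (by norm_num) h4
    rw [h1]
    linarith
  have hlog := Real.exp_le_exp.1 hfin
  refine numcore (n := (n : ℝ)) (k := (k : ℝ)) (s := s) (w := (w : ℝ)) (T := T) (J := J) (P := P)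
    (E := E) (l := l) (V := V) (R := (R : ℝ)) (N := N) hnpos hk1 hw1' hs0 hw2' hT0 hJ0 hP1 ha hb hc
    ?_ hRV2 hE0 (by linarith) hNn (by linarith) hsl ?_
  · -- bound for `V`
    have h1 : 6 * (k : ℝ) / L.G ≤ 96 * k * w / n := by
      rw [div_le_div_iff₀ hG0' hnpos]
      rw [div_le_iff₀ (by positivity)] at hGn
      have h2 := mul_le_mul_of_nonneg_left hGn (by positivity : (0 : ℝ) ≤ 6 * k)
      refine h2.trans (le_of_eq ?_)
      ring
    have h2 : T / L.len ≤ 4 * T / (w * n) := by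
      rw [div_le_div_iff₀ hlen0 (by positivity)]
      have h3 := mul_le_mul_of_nonneg_left hlen (by positivity : (0 : ℝ) ≤ 4 * T)
      refine le_trans (le_of_eq ?_) h3
      ring
    have h3 : V ≤ 96 * k * w / n * (4 * T / (w * n) + J + 1) := by
      rw [hV]
      exact mul_le_mul h1 (by linarith) (by positivity) (by positivity)
    refine h3.trans (le_of_eq ?_)
    field_simp
    ring
  · have h1 : (2 : ℝ) ^ 60 * E ≤ 2 ^ 60 * l * E := by
      have h2 := mul_le_mul_of_nonneg_left hl1 (by positivity : (0 : ℝ) ≤ 2 ^ 60 * E)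
      have h3 : (2 : ℝ) ^ 60 * E * l = 2 ^ 60 * l * E := by ring
      linarith
    linarith

end Pool.Agent.UT
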